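import Pool.Agent.Run7.h189.PT.Nt

/-!
# Random dilates, part 3: the law of the integer parts
-/

set_option autoImplicit false

namespace Pool.Agent.Run7.h189.PT

open MeasureTheory ProbabilityTheory Filter Finset
open scoped Topology ENNReal

/-- the uniform law on `[1, 2)` -/
noncomputable def U : Measure ℝ := volume.restrict (Set.Ico 1 2)

instance : IsProbabilityMeasure U := ⟨by unfold U; rw [Measure.restrict_apply_univ, Real.volume_Ico]; norm_num⟩

lemma meas_fl (M : ℕ) (P : ℕ → Prop) : MeasurableSet {x : ℝ | P ⌊x * M⌋₊} := by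
  have h : Measurable fun x : ℝ => ⌊x * M⌋₊ := Nat.measurable_floor.comp (measurable_id.mul_const _)
  exact h (MeasurableSet.of_discrete (s := {m : ℕ | P m}))

open Classical in
lemma vol_fl (M : ℕ) (hM : 1 ≤ M) (P : ℕ → Prop) :
    U.real {x : ℝ | P ⌊x * M⌋₊} = ((Ico M (2 * M)).filter P).card / (M : ℝ) := by
  have hM0 : (0 : ℝ) < M := by exact_mod_cast hM
  have h1 : U.real {x : ℝ | P ⌊x * M⌋₊} = volume.real ({x : ℝ | P ⌊x * M⌋₊} ∩ Set.Ico 1 2) := by
    unfold U Measure.real
    rw [Measure.restrict_apply (meas_fl M P)]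
  have h2 : {x : ℝ | P ⌊x * M⌋₊} ∩ Set.Ico 1 2 = ⋃ v ∈ (Ico M (2 * M)).filter P, Set.Ico ((v : ℝ) / M) ((v + 1 : ℝ) / M) := by
    ext x
    simp only [Set.mem_inter_iff, Set.mem_setOf_eq, Set.mem_Ico, Set.mem_iUnion, mem_filter, mem_Ico, exists_prop]
    constructor
    · rintro ⟨hP, hx1, hx2⟩
      have hx0 : 0 ≤ x * M := by positivity
      refine ⟨⌊x * M⌋₊, ⟨⟨?_, ?_⟩, hP⟩, ?_, ?_⟩
      · exact Nat.le_floor (by nlinarith)
      · rw [Nat.floor_lt hx0]
        push_cast
        nlinarith
      · rw [div_le_iff₀ hM0]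
        exact Nat.floor_le hx0
      · rw [lt_div_iff₀ hM0]
        exact Nat.lt_floor_add_one _
    · rintro ⟨v, ⟨⟨hv1, hv2⟩, hP⟩, hx1, hx2⟩
      rw [div_le_iff₀ hM0] at hx1
      rw [lt_div_iff₀ hM0] at hx2
      have hv1' : (M : ℝ) ≤ v := by exact_mod_cast hv1
      have hv2' : (v : ℝ) + 1 ≤ 2 * M := by exact_mod_cast hv2
      have hfl : ⌊x * M⌋₊ = v := by
        rw [Nat.floor_eq_iff (by linarith)]
        exact ⟨hx1, hx2⟩
      refine ⟨by rw [hfl]; exact hP, ?_, ?_⟩
      · by_contra hc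
        rw [not_le] at hc
        nlinarith
      · by_contra hc
        rw [not_lt] at hc
        nlinarith
  rw [h1, h2, measureReal_biUnion_finset (h := fun _ _ => by rw [Real.volume_Ico]; exact ENNReal.ofReal_ne_top)]
  · rw [sum_congr rfl (g := fun _ => 1 / (M : ℝ))]
    · rw [sum_const, nsmul_eq_mul]
      ring
    · intro v _
      rw [Measure.real, Real.volume_Ico, ENNReal.toReal_ofReal]
      · ring
      · rw [sub_nonneg]
        gcongr
        linarith
  · intro a _ b _ hab
    rw [Function.onFun, Set.disjoint_left]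
    intro x hx hx'
    rw [Set.mem_Ico, div_le_iff₀ hM0, lt_div_iff₀ hM0] at hx hx'
    apply hab
    have h3 : (a : ℝ) < b + 1 := by linarith
    have h4 : (b : ℝ) < a + 1 := by linarith
    have h5 : a < b + 1 := by exact_mod_cast h3
    have h6 : b < a + 1 := by exact_mod_cast h4
    omega
  · intro v _
    exact measurableSet_Ico

/-- the reals `x` for which the integer part of `x * 2 ^ n` is a prime -/
def A (n : ℕ) : Set ℝ := {x : ℝ | (⌊x * 2 ^ n⌋₊).Prime}

lemma A_eq (n : ℕ) : A n = {x : ℝ | (fun v : ℕ => v.Prime) ⌊x * (2 ^ n : ℕ)⌋₊} := by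
  unfold A
  push_cast
  rfl

lemma meas_A (n : ℕ) : MeasurableSet (A n) := by
  rw [A_eq]
  exact meas_fl _ _

lemma vol_A (n : ℕ) : U.real (A n) = one n / 2 ^ n := by
  classical
  have h := vol_fl (2 ^ n) Nat.one_le_two_pow (fun v : ℕ => v.Prime)
  rw [A_eq, h]
  unfold one
  have e : 2 ^ (n + 1) = 2 * 2 ^ n := by ring
  rw [e]
  push_cast
  congr!

lemma vol_A2 (n d : ℕ) : U.real (A n ∩ A (n + d)) = two n d / 2 ^ (n + d) := by
  classical
  have h : A n ∩ A (n + d) = {x : ℝ | (fun v : ℕ => v.Prime ∧ (v / 2 ^ d).Prime) ⌊x * (2 ^ (n + d) : ℕ)⌋₊} := by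
    ext x
    simp only [A, Set.mem_inter_iff, Set.mem_setOf_eq]
    have h1 : ⌊x * ((2 ^ (n + d) : ℕ) : ℝ)⌋₊ / 2 ^ d = ⌊x * 2 ^ n⌋₊ := by
      rw [← Nat.floor_div_natCast]
      congr 1
      push_cast
      rw [pow_add]
      field_simp
    rw [h1]
    push_cast
    exact and_comm
  have h' := vol_fl (2 ^ (n + d)) Nat.one_le_two_pow (fun v : ℕ => v.Prime ∧ (v / 2 ^ d).Prime)
  rw [h, h']
  unfold two
  have e : 2 ^ (n + d + 1) = 2 * 2 ^ (n + d) := by ring
  rw [e]
  push_cast
  congr!

variable {Ω : Type} [MeasurableSpace Ω] {μ : Measure Ω} [IsProbabilityMeasure μ] {θ : ℕ → Ω → ℝ}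

/-- the event: none of the integer parts of `θ j * 2 ^ n`, `j < l`, is a prime -/
def ev (θ : ℕ → Ω → ℝ) (n l : ℕ) : Set Ω := ⋂ j ∈ range l, θ j ⁻¹' (A n)ᶜ

lemma meas_ev (hm : ∀ j, Measurable (θ j)) (n l : ℕ) : MeasurableSet (ev θ n l) :=
  Finset.measurableSet_biInter _ fun j _ => hm j (meas_A n).compl

lemma coord (hm : ∀ j, Measurable (θ j)) (hlaw : ∀ j, μ.map (θ j) = U) (j : ℕ) (B : Set ℝ) (hB : MeasurableSet B) :
    μ.real (θ j ⁻¹' B) = U.real B := by
  rw [← hlaw j, map_measureReal_apply (hm j) hB]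

lemma prod_ev (hm : ∀ j, Measurable (θ j)) (hi : iIndepFun θ μ) (hlaw : ∀ j, μ.map (θ j) = U) (S : Finset ℕ)
    (B : ℕ → Set ℝ) (hB : ∀ j, MeasurableSet (B j)) : μ.real (⋂ j ∈ S, θ j ⁻¹' B j) = ∏ j ∈ S, U.real (B j) := by
  have h := hi.measure_inter_preimage_eq_mul S (sets := B) (fun j _ => hB j)
  unfold Measure.real
  rw [h, ENNReal.toReal_prod]
  apply prod_congr rfl
  intro j _
  exact coord hm hlaw j (B j) (hB j)

lemma P_ev (hm : ∀ j, Measurable (θ j)) (hi : iIndepFun θ μ) (hlaw : ∀ j, μ.map (θ j) = U) (n l : ℕ) :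
    μ.real (ev θ n l) = (1 - one n / 2 ^ n) ^ l := by
  unfold ev
  rw [prod_ev hm hi hlaw (range l) (fun _ => (A n)ᶜ) (fun _ => (meas_A n).compl), prod_const, card_range,
    probReal_compl_eq_one_sub (meas_A n), vol_A]

lemma P_ev2 (hm : ∀ j, Measurable (θ j)) (hi : iIndepFun θ μ) (hlaw : ∀ j, μ.map (θ j) = U) (n d l l' : ℕ) :
    μ.real (ev θ n l ∩ ev θ (n + d) l') =
      (1 - one n / 2 ^ n - one (n + d) / 2 ^ (n + d) + two n d / 2 ^ (n + d)) ^ (min l l') *
        (1 - one n / 2 ^ n) ^ (l - min l l') * (1 - one (n + d) / 2 ^ (n + d)) ^ (l' - min l l') := by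
  classical
  have h1 : ev θ n l ∩ ev θ (n + d) l' = ⋂ j ∈ range (max l l'), θ j ⁻¹'
      ((if j < l then (A n)ᶜ else Set.univ) ∩ (if j < l' then (A (n + d))ᶜ else Set.univ)) := by
    ext ω
    simp only [ev, Set.mem_inter_iff, Set.mem_iInter, mem_range, Set.mem_preimage]
    constructor
    · rintro ⟨h, h'⟩ j _
      constructor
      · split_ifs with hj
        · exact h j hj
        · trivial
      · split_ifs with hj
        · exact h' j hj
        · trivial
    · intro h
      constructor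
      · intro j hj
        have := (h j (by omega)).1
        rwa [if_pos hj] at this
      · intro j hj
        have := (h j (by omega)).2
        rwa [if_pos hj] at this
  rw [h1, prod_ev hm hi hlaw]
  swap
  · intro j
    apply MeasurableSet.inter
    · split_ifs
      · exact (meas_A n).compl
      · exact MeasurableSet.univ
    · split_ifs
      · exact (meas_A (n + d)).compl
      · exact MeasurableSet.univ
  have hb : U.real ((A n)ᶜ ∩ (A (n + d))ᶜ) = 1 - one n / 2 ^ n - one (n + d) / 2 ^ (n + d) + two n d / 2 ^ (n + d) := by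
    rw [← Set.compl_union, probReal_compl_eq_one_sub ((meas_A n).union (meas_A (n + d)))]
    have h2 := measureReal_union_add_inter (μ := U) (s := A n) (t := A (n + d)) (meas_A (n + d))
    rw [vol_A, vol_A, vol_A2] at h2
    linarith
  have hval : ∀ j, U.real ((if j < l then (A n)ᶜ else Set.univ) ∩ (if j < l' then (A (n + d))ᶜ else Set.univ)) =
      if j < min l l' then (1 - one n / 2 ^ n - one (n + d) / 2 ^ (n + d) + two n d / 2 ^ (n + d) : ℝ) else
        if j < l then 1 - one n / 2 ^ n else if j < l' then 1 - one (n + d) / 2 ^ (n + d) else 1 := by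
    intro j
    by_cases h1 : j < l <;> by_cases h2 : j < l'
    · rw [if_pos h1, if_pos h2, if_pos (lt_min h1 h2), hb]
    · rw [if_pos h1, if_neg h2, if_neg (fun h => h2 (lt_min_iff.1 h).2), if_pos h1, Set.inter_univ,
        probReal_compl_eq_one_sub (meas_A n), vol_A]
    · rw [if_neg h1, if_pos h2, if_neg (fun h => h1 (lt_min_iff.1 h).1), if_neg h1, if_pos h2, Set.univ_inter,
        probReal_compl_eq_one_sub (meas_A (n + d)), vol_A]
    · rw [if_neg h1, if_neg h2, if_neg (fun h => h1 (lt_min_iff.1 h).1), if_neg h1, if_neg h2, Set.univ_inter,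
        probReal_univ]
  rw [prod_congr rfl fun j _ => hval j]
  rcases le_total l l' with hl | hl
  · rw [min_eq_left hl, max_eq_right hl, Nat.sub_self, pow_zero, mul_one]
    have h3 : range l' = range l ∪ Ico l l' := by
      ext j
      simp only [mem_range, mem_union, mem_Ico]
      omega
    rw [h3, prod_union (by
      rw [disjoint_left]
      intro j h4 h5
      rw [mem_range] at h4
      rw [mem_Ico] at h5
      omega)]
    congr 1
    · rw [prod_congr rfl (g := fun _ => (1 - one n / 2 ^ n - one (n + d) / 2 ^ (n + d) + two n d / 2 ^ (n + d) : ℝ)),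
        prod_const, card_range]
      intro j hj
      rw [mem_range] at hj
      rw [if_pos hj]
    · rw [prod_congr rfl (g := fun _ => (1 - one (n + d) / 2 ^ (n + d) : ℝ)), prod_const, Nat.card_Ico]
      intro j hj
      rw [mem_Ico] at hj
      rw [if_neg (by omega), if_neg (by omega), if_pos hj.2]
  · rw [min_eq_right hl, max_eq_left hl, Nat.sub_self, pow_zero, mul_one]
    have h3 : range l = range l' ∪ Ico l' l := by
      ext j
      simp only [mem_range, mem_union, mem_Ico]
      omega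
    rw [h3, prod_union (by
      rw [disjoint_left]
      intro j h4 h5
      rw [mem_range] at h4
      rw [mem_Ico] at h5
      omega)]
    congr 1
    · rw [prod_congr rfl (g := fun _ => (1 - one n / 2 ^ n - one (n + d) / 2 ^ (n + d) + two n d / 2 ^ (n + d) : ℝ)),
        prod_const, card_range]
      intro j hj
      rw [mem_range] at hj
      rw [if_pos hj]
    · rw [prod_congr rfl (g := fun _ => (1 - one n / 2 ^ n : ℝ)), prod_const, Nat.card_Ico]
      intro j hj
      rw [mem_Ico] at hj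
      rw [if_neg (by omega), if_pos hj.2]

end Pool.Agent.Run7.h189.PT
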