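import Pool.Agent.Helper923.PNT

/-!
# Random dilates, part 7: the size of the `n`-th prime
-/

set_option autoImplicit false

namespace Pool.Agent.Run7.h189.PT

open Filter
open scoped Topology

theorem nth_asymp : Tendsto (fun n : ℕ => (Nat.nth Nat.Prime (n - 1) : ℝ) / (n * Real.log n)) atTop (𝓝 1) := by
  have hp : Tendsto (fun n : ℕ => (Nat.nth Nat.Prime (n - 1) : ℝ)) atTop atTop := by
    apply tendsto_natCast_atTop_atTop.comp
    apply tendsto_atTop_mono (f := fun n => n) _ tendsto_id
    intro n
    have := Nat.add_two_le_nth_prime (n - 1)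
    omega
  obtain ⟨p, hpd⟩ : ∃ p : ℕ → ℝ, p = fun n => (Nat.nth Nat.Prime (n - 1) : ℝ) := ⟨_, rfl⟩
  rw [← hpd] at hp
  have hpe : ∀ n : ℕ, (Nat.nth Nat.Prime (n - 1) : ℝ) = p n := fun n => by rw [hpd]
  simp only [hpe]
  have hlog : Tendsto (fun n => Real.log (p n)) atTop atTop := Real.tendsto_log_atTop.comp hp
  have hlogn : Tendsto (fun n : ℕ => Real.log (n : ℝ)) atTop atTop := Real.tendsto_log_atTop.comp tendsto_natCast_atTop_atTop
  have h1 : Tendsto (fun n : ℕ => (n : ℝ) * Real.log (p n) / p n) atTop (𝓝 1) := by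
    have h := Pool.Agent.Helper923.PNT.pi_tendsto.comp hp
    refine h.congr' ?_
    filter_upwards [eventually_ge_atTop 1] with n hn
    simp only [Function.comp_apply]
    have e : (Nat.primeCounting ⌊p n⌋₊ : ℝ) = n := by
      rw [← hpe, Nat.floor_natCast]
      have : Nat.primeCounting (Nat.nth Nat.Prime (n - 1)) = n := by
        unfold Nat.primeCounting
        rw [Nat.primeCounting', Nat.count_succ, if_pos (Nat.prime_nth_prime _), Nat.count_nth_of_infinite Nat.infinite_setOf_prime]
        omega
      rw [this]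
    rw [e]
  have h2 : Tendsto (fun n : ℕ => Real.log ((n : ℝ) * Real.log (p n) / p n)) atTop (𝓝 0) := by
    have := h1.log one_ne_zero
    rwa [Real.log_one] at this
  have h3 : Tendsto (fun n : ℕ => Real.log (Real.log (p n)) / Real.log (p n)) atTop (𝓝 0) :=
    Real.isLittleO_log_id_atTop.tendsto_div_nhds_zero.comp hlog
  have h4 : Tendsto (fun n : ℕ => Real.log ((n : ℝ) * Real.log (p n) / p n) / Real.log (p n)) atTop (𝓝 0) :=
    h2.div_atTop hlog
  have h5 : Tendsto (fun n : ℕ => Real.log (n : ℝ) / Real.log (p n)) atTop (𝓝 1) := by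
    have h := (h4.sub h3).add_const 1
    rw [sub_zero, zero_add] at h
    refine h.congr' ?_
    filter_upwards [eventually_ge_atTop 1, hlog.eventually (eventually_gt_atTop 0), hp.eventually (eventually_gt_atTop 0)] with
      n hn hl hp0
    have hn0 : (0 : ℝ) < n := by exact_mod_cast hn
    rw [Real.log_div (by positivity) hp0.ne', Real.log_mul hn0.ne' hl.ne']
    field_simp
    ring
  have h6 := (h1.inv₀ one_ne_zero).mul (h5.inv₀ one_ne_zero)
  rw [inv_one, mul_one] at h6
  refine h6.congr' ?_
  filter_upwards [eventually_ge_atTop 1, hlog.eventually (eventually_gt_atTop 0), hp.eventually (eventually_gt_atTop 0),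
    hlogn.eventually (eventually_gt_atTop 0)] with n hn hl hp0 hl'
  have hn0 : (0 : ℝ) < n := by exact_mod_cast hn
  field_simp

end Pool.Agent.Run7.h189.PT
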