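import Pool.Agent.Run7.h189.PT.Law
import Pool.Agent.Run7.h189.PT.Nth

/-!
# Random dilates, part 8: the number of the primes, and all `n` at once
-/

set_option autoImplicit false

namespace Pool.Agent.Run7.h189.PT

open MeasureTheory ProbabilityTheory Filter Finset Asymptotics
open scoped Topology ENNReal

variable {Ω : Type} [MeasurableSpace Ω] {μ : Measure Ω} [IsProbabilityMeasure μ] {θ : ℕ → Ω → ℝ}

/-- the number of the primes among the integer parts of `θ j * 2 ^ n`, `j < l` -/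
noncomputable def X (θ : ℕ → Ω → ℝ) (n l : ℕ) (ω : Ω) : ℝ := ∑ j ∈ range l, (A n).indicator (fun _ => (1 : ℝ)) (θ j ω)

lemma int_step (n : ℕ) (t : ℝ) : ∫ x, Real.exp (t * (A n).indicator (fun _ => (1 : ℝ)) x) ∂U = 1 + pr n * (Real.exp t - 1) := by
  have h1 : ∀ x, Real.exp (t * (A n).indicator (fun _ => (1 : ℝ)) x) = 1 + (Real.exp t - 1) * (A n).indicator (fun _ => (1 : ℝ)) x := by
    intro x
    by_cases h : x ∈ A n
    · rw [Set.indicator_of_mem h]
      ring_nf
    · rw [Set.indicator_of_notMem h]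
      simp
  simp only [h1]
  rw [integral_add (integrable_const _) (((integrable_const (1 : ℝ)).indicator (meas_A n)).const_mul _), integral_const_mul,
    integral_indicator (meas_A n)]
  simp only [integral_const, probReal_univ, smul_eq_mul, mul_one, measureReal_restrict_apply_univ]
  rw [vol_A]
  unfold pr
  ring

lemma mgf_X (hm : ∀ j, Measurable (θ j)) (hi : iIndepFun θ μ) (hlaw : ∀ j, μ.map (θ j) = U) (n l : ℕ) (t : ℝ) :
    mgf (X θ n l) μ t = (1 + pr n * (Real.exp t - 1)) ^ l := by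
  have hf : Measurable ((A n).indicator (fun _ => (1 : ℝ))) := measurable_const.indicator (meas_A n)
  have h1 : iIndepFun (fun j => (A n).indicator (fun _ => (1 : ℝ)) ∘ θ j) μ := hi.comp _ (fun _ => hf)
  have h2 := h1.mgf_sum (t := t) (fun j => hf.comp (hm j)) (range l)
  have h3 : X θ n l = ∑ j ∈ range l, (A n).indicator (fun _ => (1 : ℝ)) ∘ θ j := by
    funext ω
    rw [Finset.sum_apply]
    rfl
  rw [h3, h2]
  have h4 : ∀ j, mgf ((A n).indicator (fun _ => (1 : ℝ)) ∘ θ j) μ t = 1 + pr n * (Real.exp t - 1) := by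
    intro j
    rw [← int_step, ← hlaw j, integral_map (hm j).aemeasurable]
    · rfl
    · exact (Real.measurable_exp.comp (measurable_const.mul hf)).aestronglyMeasurable
  rw [prod_congr rfl fun j _ => h4 j, prod_const, card_range]

lemma meas_X (hm : ∀ j, Measurable (θ j)) (n l : ℕ) : Measurable (X θ n l) := by
  unfold X
  exact Finset.measurable_sum _ fun j _ => (measurable_const.indicator (meas_A n)).comp (hm j)

lemma X_bd (n l : ℕ) (ω : Ω) : 0 ≤ X θ n l ω ∧ X θ n l ω ≤ l := by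
  unfold X
  constructor
  · exact sum_nonneg fun j _ => Set.indicator_nonneg (fun _ _ => zero_le_one) _
  · calc ∑ j ∈ range l, (A n).indicator (fun _ => (1 : ℝ)) (θ j ω) ≤ ∑ _j ∈ range l, (1 : ℝ) := by
          apply sum_le_sum
          intro j _
          exact Set.indicator_le_self' (fun _ _ => zero_le_one) _
      _ = l := by simp

lemma int_X (hm : ∀ j, Measurable (θ j)) (n l : ℕ) (t : ℝ) : Integrable (fun ω => Real.exp (t * X θ n l ω)) μ := by
  apply Integrable.of_bound ((Real.measurable_exp.comp ((meas_X hm n l).const_mul t)).aestronglyMeasurable) (Real.exp (|t| * l))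
  apply Eventually.of_forall
  intro ω
  rw [Real.norm_eq_abs, Function.comp_apply, abs_of_pos (Real.exp_pos _)]
  apply Real.exp_le_exp.2
  have h := X_bd (θ := θ) n l ω
  calc t * X θ n l ω ≤ |t| * X θ n l ω := mul_le_mul_of_nonneg_right (le_abs_self t) h.1
    _ ≤ _ := mul_le_mul_of_nonneg_left h.2 (abs_nonneg t)

/-- the upper bound -/
theorem upper (hm : ∀ j, Measurable (θ j)) (hi : iIndepFun θ μ) (hlaw : ∀ j, μ.map (θ j) = U) (l : ℕ → ℕ) (κ b t : ℝ) (ht : 0 ≤ t)
    (hl : ∀ᶠ n : ℕ in atTop, pr n * l n ≤ b * Real.log n) (hκ : 1 < κ * t - b * (Real.exp t - 1)) :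
    ∀ᵐ ω ∂μ, ∀ᶠ n : ℕ in atTop, X θ n (l n) ω < κ * Real.log n := by
  obtain ⟨n0, hn0⟩ := eventually_atTop.1 hl
  obtain ⟨s, hs⟩ : ∃ s, s = κ * t - b * (Real.exp t - 1) := ⟨_, rfl⟩
  have hsum : Summable fun n : ℕ => 1 / (n : ℝ) ^ s := Real.summable_one_div_nat_rpow.2 (by rw [hs]; exact hκ)
  have hP : ∀ n : ℕ, n0 + 1 ≤ n → μ {ω | κ * Real.log n ≤ X θ n (l n) ω} ≤ ENNReal.ofReal (1 / (n : ℝ) ^ s) := by
    intro n hn
    have hnp : (0 : ℝ) < n := by exact_mod_cast (by omega : 0 < n)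
    have h1 := measure_ge_le_exp_mul_mgf (μ := μ) (X := X θ n (l n)) (κ * Real.log n) ht (int_X hm n (l n) t)
    rw [mgf_X hm hi hlaw] at h1
    have h2 : (1 + pr n * (Real.exp t - 1)) ^ (l n) ≤ Real.exp (b * Real.log n * (Real.exp t - 1)) := by
      have e1 : 0 ≤ Real.exp t - 1 := by linarith [Real.one_le_exp ht]
      calc (1 + pr n * (Real.exp t - 1)) ^ (l n) ≤ Real.exp (pr n * (Real.exp t - 1)) ^ (l n) := by
            apply pow_le_pow_left₀
            · have := mul_nonneg (pr_nonneg n) e1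
              linarith
            · linarith [Real.add_one_le_exp (pr n * (Real.exp t - 1))]
        _ = Real.exp (pr n * l n * (Real.exp t - 1)) := by
            rw [← Real.exp_nat_mul]
            congr 1
            ring
        _ ≤ _ := by
            apply Real.exp_le_exp.2
            exact mul_le_mul_of_nonneg_right (hn0 n (by omega)) e1
    have h3 : Real.exp (-t * (κ * Real.log n)) * Real.exp (b * Real.log n * (Real.exp t - 1)) = 1 / (n : ℝ) ^ s := by
      rw [← Real.exp_add, Real.rpow_def_of_pos hnp, one_div, ← Real.exp_neg, hs]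
      congr 1
      ring
    have h4 : μ.real {ω | κ * Real.log n ≤ X θ n (l n) ω} ≤ 1 / (n : ℝ) ^ s := by
      rw [← h3]
      exact h1.trans (mul_le_mul_of_nonneg_left h2 (Real.exp_pos _).le)
    rw [← ENNReal.ofReal_toReal (measure_ne_top μ _)]
    exact ENNReal.ofReal_le_ofReal h4
  have hfin : ∑' n : ℕ, μ {ω | κ * Real.log ((n + (n0 + 1) : ℕ) : ℝ) ≤ X θ (n + (n0 + 1)) (l (n + (n0 + 1))) ω} ≠ ∞ := by
    apply ne_top_of_le_ne_top _ (ENNReal.tsum_le_tsum fun n => hP (n + (n0 + 1)) (by omega))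
    rw [← ENNReal.ofReal_tsum_of_nonneg (fun n => by positivity) ((summable_nat_add_iff (n0 + 1)).2 hsum)]
    exact ENNReal.ofReal_ne_top
  filter_upwards [ae_eventually_notMem hfin] with ω hω
  obtain ⟨k, hk⟩ := eventually_atTop.1 hω
  refine eventually_atTop.2 ⟨k + (n0 + 1), fun n hn => ?_⟩
  have h5 := hk (n - (n0 + 1)) (by omega)
  rw [Nat.sub_add_cancel (by omega)] at h5
  exact not_le.1 h5

/-- the lower bound -/
theorem lower (hm : ∀ j, Measurable (θ j)) (hi : iIndepFun θ μ) (hlaw : ∀ j, μ.map (θ j) = U) (l : ℕ → ℕ) (κ b t : ℝ) (ht : 0 ≤ t)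
    (hl : ∀ᶠ n : ℕ in atTop, b * Real.log n ≤ pr n * l n) (hκ : 1 < b * (1 - Real.exp (-t)) - κ * t) :
    ∀ᵐ ω ∂μ, ∀ᶠ n : ℕ in atTop, κ * Real.log n < X θ n (l n) ω := by
  obtain ⟨n0, hn0⟩ := eventually_atTop.1 hl
  obtain ⟨s, hs⟩ : ∃ s, s = b * (1 - Real.exp (-t)) - κ * t := ⟨_, rfl⟩
  have hsum : Summable fun n : ℕ => 1 / (n : ℝ) ^ s := Real.summable_one_div_nat_rpow.2 (by rw [hs]; exact hκ)
  have hP : ∀ n : ℕ, n0 + 1 ≤ n → μ {ω | X θ n (l n) ω ≤ κ * Real.log n} ≤ ENNReal.ofReal (1 / (n : ℝ) ^ s) := by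
    intro n hn
    have hnp : (0 : ℝ) < n := by exact_mod_cast (by omega : 0 < n)
    have h1 := measure_le_le_exp_mul_mgf (μ := μ) (X := X θ n (l n)) (t := -t) (κ * Real.log n) (by linarith) (int_X hm n (l n) (-t))
    rw [mgf_X hm hi hlaw] at h1
    have e1 : 0 ≤ 1 - Real.exp (-t) := by
      have : Real.exp (-t) ≤ 1 := Real.exp_le_one_iff.2 (by linarith)
      linarith
    have e2 : pr n ≤ 1 := by
      unfold pr
      rw [div_le_one (by positivity)]
      exact one_le n
    have h2 : (1 + pr n * (Real.exp (-t) - 1)) ^ (l n) ≤ Real.exp (-(b * Real.log n * (1 - Real.exp (-t)))) := by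
      calc (1 + pr n * (Real.exp (-t) - 1)) ^ (l n) ≤ Real.exp (pr n * (Real.exp (-t) - 1)) ^ (l n) := by
            apply pow_le_pow_left₀
            · have h5 := mul_le_mul_of_nonneg_right e2 e1
              have h6 := Real.exp_pos (-t)
              linarith
            · linarith [Real.add_one_le_exp (pr n * (Real.exp (-t) - 1))]
        _ = Real.exp (-(pr n * l n * (1 - Real.exp (-t)))) := by
            rw [← Real.exp_nat_mul]
            congr 1
            ring
        _ ≤ _ := by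
            apply Real.exp_le_exp.2
            rw [neg_le_neg_iff]
            exact mul_le_mul_of_nonneg_right (hn0 n (by omega)) e1
    have h3 : Real.exp (-(-t) * (κ * Real.log n)) * Real.exp (-(b * Real.log n * (1 - Real.exp (-t)))) = 1 / (n : ℝ) ^ s := by
      rw [← Real.exp_add, Real.rpow_def_of_pos hnp, one_div, ← Real.exp_neg, hs]
      congr 1
      ring
    have h4 : μ.real {ω | X θ n (l n) ω ≤ κ * Real.log n} ≤ 1 / (n : ℝ) ^ s := by
      rw [← h3]
      exact h1.trans (mul_le_mul_of_nonneg_left h2 (Real.exp_pos _).le)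
    rw [← ENNReal.ofReal_toReal (measure_ne_top μ _)]
    exact ENNReal.ofReal_le_ofReal h4
  have hfin : ∑' n : ℕ, μ {ω | X θ (n + (n0 + 1)) (l (n + (n0 + 1))) ω ≤ κ * Real.log ((n + (n0 + 1) : ℕ) : ℝ)} ≠ ∞ := by
    apply ne_top_of_le_ne_top _ (ENNReal.tsum_le_tsum fun n => hP (n + (n0 + 1)) (by omega))
    rw [← ENNReal.ofReal_tsum_of_nonneg (fun n => by positivity) ((summable_nat_add_iff (n0 + 1)).2 hsum)]
    exact ENNReal.ofReal_ne_top
  filter_upwards [ae_eventually_notMem hfin] with ω hω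
  obtain ⟨k, hk⟩ := eventually_atTop.1 hω
  refine eventually_atTop.2 ⟨k + (n0 + 1), fun n hn => ?_⟩
  have h5 := hk (n - (n0 + 1)) (by omega)
  rw [Nat.sub_add_cancel (by omega)] at h5
  exact not_le.1 h5

end Pool.Agent.Run7.h189.PT
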