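import Pool.Agent.Run7.h189.PT.Coord

/-!
# Random dilates, part 4: covariances and the sizes of the probabilities
-/

set_option autoImplicit false

namespace Pool.Agent.Run7.h189.PT

open MeasureTheory ProbabilityTheory Filter Finset
open scoped Topology ENNReal

variable {Ω : Type} [MeasurableSpace Ω] {μ : Measure Ω} [IsProbabilityMeasure μ] {θ : ℕ → Ω → ℝ}

/-- the probability that the integer part is a prime -/
noncomputable def pr (n : ℕ) : ℝ := one n / 2 ^ n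

lemma inv_log_two : 1.4426 ≤ 1 / Real.log 2 ∧ 1 / Real.log 2 ≤ 1.4428 := by
  have h1 := Real.log_two_gt_d9
  have h2 := Real.log_two_lt_d9
  have h3 : 0 < Real.log 2 := by linarith
  constructor
  · rw [le_div_iff₀ h3]
    nlinarith
  · rw [div_le_iff₀ h3]
    nlinarith

/-- the size of `pr n` -/
lemma pr_size : ∃ (K : ℝ) (n1 : ℕ), 0 ≤ K ∧ 2 ≤ n1 ∧ (∀ n : ℕ, 1 ≤ n → |pr n - 1 / (n * Real.log 2)| ≤ K / n ^ 2) ∧
    ∀ n : ℕ, n1 ≤ n → 1 / (n : ℝ) ≤ pr n ∧ pr n ≤ 2 / n ∧ pr n ≤ 1 / 2 := by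
  obtain ⟨K, hK, h⟩ := one_bd
  obtain ⟨n1, hn1⟩ := exists_nat_ge (3 * K + 10)
  refine ⟨K, n1, hK, ?_, h, ?_⟩
  · have : (2 : ℝ) ≤ n1 := by linarith
    exact_mod_cast this
  · intro n hn
    have hnr : 3 * K + 10 ≤ (n : ℝ) := hn1.trans (by exact_mod_cast hn)
    have hn0 : (0 : ℝ) < n := by linarith
    have hn' : 1 ≤ n := by
      have : (1 : ℝ) ≤ n := by linarith
      exact_mod_cast this
    have h1 := abs_le.1 (h n hn')
    have h2 := inv_log_two
    have e : 1 / ((n : ℝ) * Real.log 2) = (1 / Real.log 2) / n := by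
      rw [div_div, mul_comm]
    have h3 : K / (n : ℝ) ^ 2 ≤ (1 / 3) / n := by
      rw [div_le_div_iff₀ (by positivity) hn0]
      nlinarith
    have h4 : 1.4426 / (n : ℝ) ≤ (1 / Real.log 2) / n := by gcongr; exact h2.1
    have h5 : (1 / Real.log 2) / n ≤ 1.4428 / (n : ℝ) := by gcongr; exact h2.2
    have h6 : pr n = one n / 2 ^ n := rfl
    rw [← h6, e] at h1
    have h7 : 1 / (n : ℝ) ≤ 1.4426 / (n : ℝ) - (1 / 3) / n := by
      rw [← sub_div]
      gcongr
      norm_num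
    have h8 : 1.4428 / (n : ℝ) + (1 / 3) / n ≤ 2 / n := by
      rw [← add_div]
      gcongr
      norm_num
    have h9 : 2 / (n : ℝ) ≤ 1 / 2 := by
      rw [div_le_div_iff₀ hn0 (by norm_num)]
      linarith
    exact ⟨by linarith, by linarith, by linarith⟩

lemma pr_nonneg (n : ℕ) : 0 ≤ pr n := by unfold pr; positivity

lemma exp_sub_one_le' (y : ℝ) : Real.exp y - 1 ≤ y * Real.exp y := by
  have h1 := Real.add_one_le_exp (-y)
  have h2 : Real.exp (-y) * Real.exp y = 1 := by rw [← Real.exp_add]; simp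
  have h3 := mul_le_mul_of_nonneg_right h1 (Real.exp_pos y).le
  rw [h2] at h3
  linarith

lemma t_exp (t : ℝ) : t * Real.exp (-(t / 2)) ≤ 1 := by
  have h1 := Real.add_one_le_exp (t / 2 - 1)
  have h3 : t ≤ Real.exp (t / 2) := by
    have h4 : Real.exp (t / 2) = Real.exp 1 * Real.exp (t / 2 - 1) := by rw [← Real.exp_add]; congr 1; ring
    have h5 : 2 ≤ Real.exp 1 := by linarith [Real.add_one_le_exp (1 : ℝ)]
    have h6 := mul_le_mul_of_nonneg_right h5 (Real.exp_pos (t / 2 - 1)).le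
    rw [h4]
    linarith
  rw [Real.exp_neg, ← div_eq_mul_inv, div_le_one (Real.exp_pos _)]
  exact h3

/-- the covariance of two events -/
lemma cov_bd : ∃ (C : ℝ) (n1 : ℕ), 0 ≤ C ∧ 2 ≤ n1 ∧ ∀ {Ω : Type} [MeasurableSpace Ω] (μ : Measure Ω) [IsProbabilityMeasure μ]
    (θ : ℕ → Ω → ℝ), (∀ j, Measurable (θ j)) → iIndepFun θ μ → (∀ j, μ.map (θ j) = U) → ∀ n m l l' : ℕ, n1 ≤ n → n < m →
      μ.real (ev θ n l ∩ ev θ m l') - μ.real (ev θ n l) * μ.real (ev θ m l') ≤ C / m * μ.real (ev θ m l') := by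
  obtain ⟨C, hC, h2⟩ := two_bd
  obtain ⟨K, n1, hK, hn1, -, hs⟩ := pr_size
  obtain ⟨n2, hn2⟩ := exists_nat_ge (8 * C)
  refine ⟨4 * C, n1 + n2, by positivity, by omega, ?_⟩
  intro Ω _ μ _ θ hm hi hlaw n m l l' hn hnm
  obtain ⟨d, rfl⟩ : ∃ d, m = n + d := ⟨m - n, by omega⟩
  have hd : 1 ≤ d := by omega
  have hn0 : 1 ≤ n := by omega
  have hnr : (1 : ℝ) ≤ n := by exact_mod_cast hn0
  have hmr : (1 : ℝ) ≤ ((n + d : ℕ) : ℝ) := by exact_mod_cast (by omega : 1 ≤ n + d)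
  obtain ⟨a1, a2, a3⟩ := hs n (by omega)
  obtain ⟨b1, b2, b3⟩ := hs (n + d) (by omega)
  have hCm : 8 * C ≤ ((n + d : ℕ) : ℝ) := hn2.trans (by exact_mod_cast (by omega : n2 ≤ n + d))
  obtain ⟨r, hr⟩ : ∃ r : ℝ, r = two n d / 2 ^ (n + d) := ⟨_, rfl⟩
  have hr0 : 0 ≤ r := by rw [hr]; positivity
  have hr1 : r ≤ C / (n * ((n + d : ℕ) : ℝ)) := by
    rw [hr, div_le_iff₀ (by positivity)]
    refine (h2 n d hn0 hd).trans (le_of_eq ?_)
    push_cast
    ring
  have hbase : 0 ≤ 1 - pr n - pr (n + d) + r := by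
    have h := measureReal_union_add_inter (μ := U) (s := A n) (t := A (n + d)) (meas_A (n + d))
    have h' : U.real (A n ∪ A (n + d)) ≤ 1 := measureReal_le_one
    rw [vol_A, vol_A, vol_A2, ← hr] at h
    unfold pr
    linarith
  obtain ⟨k, hk⟩ : ∃ k, k = min l l' := ⟨_, rfl⟩
  have hkl : k ≤ l := by rw [hk]; exact min_le_left _ _
  have hkl' : k ≤ l' := by rw [hk]; exact min_le_right _ _
  have p1 : μ.real (ev θ n l ∩ ev θ (n + d) l') = (1 - pr n - pr (n + d) + r) ^ k * (1 - pr n) ^ (l - k) * (1 - pr (n + d)) ^ (l' - k) := by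
    rw [P_ev2 hm hi hlaw n d l l', hk, hr]
    rfl
  have p2 : μ.real (ev θ n l) = (1 - pr n) ^ l := P_ev hm hi hlaw n l
  have p3 : μ.real (ev θ (n + d) l') = (1 - pr (n + d)) ^ l' := P_ev hm hi hlaw (n + d) l'
  obtain ⟨z, hz⟩ : ∃ z, z = 1 - pr n - pr (n + d) + r := ⟨_, rfl⟩
  obtain ⟨u, hu⟩ : ∃ u, u = 1 - pr n := ⟨_, rfl⟩
  obtain ⟨v, hv⟩ : ∃ v, v = 1 - pr (n + d) := ⟨_, rfl⟩
  have hu1 : 1 / 2 ≤ u := by linarith
  have hv1 : 1 / 2 ≤ v := by linarith
  rw [← hz, ← hu, ← hv] at p1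
  rw [← hu] at p2
  rw [← hv] at p3
  rw [← hz] at hbase
  rw [p1, p2, p3]
  have hb : z ≤ u * v * Real.exp (4 * r) := by
    have e1 := Real.add_one_le_exp (4 * r)
    have e2 : z ≤ u * v + r := by
      rw [hz, hu, hv]
      have := mul_nonneg (pr_nonneg n) (pr_nonneg (n + d))
      linarith
    have e3 : (1 / 4 : ℝ) ≤ u * v := by
      have := mul_le_mul hu1 hv1 (by norm_num) (by linarith)
      linarith
    have e4 : u * v * (4 * r + 1) ≤ u * v * Real.exp (4 * r) := mul_le_mul_of_nonneg_left e1 (by linarith)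
    have e5 := mul_le_mul_of_nonneg_right e3 (by positivity : 0 ≤ 4 * r)
    linarith
  have hu0 : 0 < u := by linarith
  have hv0 : 0 < v := by linarith
  have q1 : z ^ k * u ^ (l - k) * v ^ (l' - k) ≤ u ^ l * v ^ l' * Real.exp (4 * r * k) := by
    calc z ^ k * u ^ (l - k) * v ^ (l' - k) ≤ (u * v * Real.exp (4 * r)) ^ k * u ^ (l - k) * v ^ (l' - k) := by
          gcongr
      _ = (u ^ k * u ^ (l - k)) * (v ^ k * v ^ (l' - k)) * Real.exp (4 * r) ^ k := by
          rw [mul_pow, mul_pow]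
          ring
      _ = _ := by
          rw [← pow_add, ← pow_add, Nat.add_sub_cancel' hkl, Nat.add_sub_cancel' hkl', ← Real.exp_nat_mul]
          ring_nf
  obtain ⟨t, ht⟩ : ∃ t : ℝ, t = l / n := ⟨_, rfl⟩
  have ht0 : 0 ≤ t := by rw [ht]; positivity
  obtain ⟨M, hM⟩ : ∃ M : ℝ, M = ((n + d : ℕ) : ℝ) := ⟨_, rfl⟩
  rw [← hM] at hCm hmr hr1 ⊢
  have hM0 : 0 < M := by linarith
  obtain ⟨y, hy⟩ : ∃ y : ℝ, y = 4 * C * t / M := ⟨_, rfl⟩
  have hy0 : 0 ≤ y := by rw [hy]; positivity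
  have hrk : 4 * r * k ≤ y := by
    have h1 : (k : ℝ) ≤ l := by exact_mod_cast hkl
    calc 4 * r * k ≤ 4 * (C / (n * M)) * l := by gcongr
      _ = y := by rw [hy, ht]; field_simp
  have hy2 : y ≤ t / 2 := by
    rw [hy, div_le_div_iff₀ hM0 (by norm_num)]
    have := mul_le_mul_of_nonneg_left hCm ht0
    linarith
  have hul : u ^ l ≤ Real.exp (-t) := by
    have h1 : u ≤ Real.exp (-(1 / n)) := by
      have := Real.add_one_le_exp (-(1 / (n : ℝ)))
      linarith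
    calc u ^ l ≤ Real.exp (-(1 / n)) ^ l := pow_le_pow_left₀ hu0.le h1 l
      _ = _ := by
        rw [← Real.exp_nat_mul, ht]
        congr 1
        ring
  have hexp : Real.exp y - 1 ≤ y * Real.exp y := exp_sub_one_le' y
  have hte : t * Real.exp (-(t / 2)) ≤ 1 := t_exp t
  have q2 : u ^ l * (Real.exp (4 * r * k) - 1) ≤ 4 * C / M := by
    calc u ^ l * (Real.exp (4 * r * k) - 1) ≤ Real.exp (-t) * (y * Real.exp y) := by
          apply mul_le_mul hul _ _ (Real.exp_pos _).le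
          · exact le_trans (by linarith [Real.exp_le_exp.2 hrk]) hexp
          · have : 1 ≤ Real.exp (4 * r * k) := Real.one_le_exp (by positivity)
            linarith
      _ = y * Real.exp (-t + y) := by rw [Real.exp_add]; ring
      _ ≤ y * Real.exp (-(t / 2)) := by
          apply mul_le_mul_of_nonneg_left _ hy0
          exact Real.exp_le_exp.2 (by linarith)
      _ = 4 * C / M * (t * Real.exp (-(t / 2))) := by rw [hy]; ring
      _ ≤ 4 * C / M * 1 := mul_le_mul_of_nonneg_left hte (by positivity)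
      _ = _ := mul_one _
  have hvl : 0 < v ^ l' := by positivity
  calc z ^ k * u ^ (l - k) * v ^ (l' - k) - u ^ l * v ^ l' ≤
      u ^ l * v ^ l' * Real.exp (4 * r * k) - u ^ l * v ^ l' := by linarith
    _ = u ^ l * (Real.exp (4 * r * k) - 1) * v ^ l' := by ring
    _ ≤ 4 * C / M * v ^ l' := mul_le_mul_of_nonneg_right q2 hvl.le

end Pool.Agent.Run7.h189.PT
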