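import Mathlib

/-!
# Random dilates, part 1: a strong law for events with small covariances
-/

set_option autoImplicit false

namespace Pool.Agent.Run7.h189.PT

open MeasureTheory ProbabilityTheory Filter Finset
open scoped Topology ENNReal

variable {Ω : Type} [MeasurableSpace Ω] {μ : Measure Ω} [IsProbabilityMeasure μ]

/-- the number of the `n < N` with `ω ∈ E n` -/
noncomputable def cnt (E : ℕ → Set Ω) (N : ℕ) (ω : Ω) : ℝ := ∑ n ∈ range N, (E n).indicator (fun _ => (1 : ℝ)) ω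

lemma ind_nonneg (A : Set Ω) (ω : Ω) : 0 ≤ A.indicator (fun _ => (1 : ℝ)) ω :=
  Set.indicator_nonneg (fun _ _ => zero_le_one) _

lemma cnt_mono (E : ℕ → Set Ω) (ω : Ω) {M N : ℕ} (h : M ≤ N) : cnt E M ω ≤ cnt E N ω :=
  sum_le_sum_of_subset_of_nonneg (range_mono h) (fun _ _ _ => ind_nonneg _ _)

lemma memLp_ind (A : Set Ω) (hA : MeasurableSet A) : MemLp (A.indicator (fun _ => (1 : ℝ))) 2 μ :=
  memLp_indicator_const 2 hA 1 (Or.inr (measure_ne_top _ _))

lemma cov_ind (A B : Set Ω) (hA : MeasurableSet A) (hB : MeasurableSet B) :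
    covariance (A.indicator (fun _ => (1 : ℝ))) (B.indicator (fun _ => (1 : ℝ))) μ = μ.real (A ∩ B) - μ.real A * μ.real B := by
  rw [covariance_eq_sub (memLp_ind A hA) (memLp_ind B hB)]
  have h1 : (A.indicator (fun _ => (1 : ℝ))) * (B.indicator (fun _ => (1 : ℝ))) = (A ∩ B).indicator (fun _ => (1 : ℝ)) := by
    funext x
    by_cases ha : x ∈ A <;> by_cases hb : x ∈ B <;> simp [ha, hb]
  rw [h1]
  have h2 : ∀ C : Set Ω, MeasurableSet C → ∫ x, C.indicator (fun _ => (1 : ℝ)) x ∂μ = μ.real C := by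
    intro C hC
    rw [integral_indicator hC]
    simp
  rw [h2 _ (hA.inter hB), h2 _ hA, h2 _ hB]

lemma int_cnt (E : ℕ → Set Ω) (hE : ∀ n, MeasurableSet (E n)) (N : ℕ) :
    ∫ x, cnt E N x ∂μ = ∑ n ∈ range N, μ.real (E n) := by
  unfold cnt
  rw [integral_finset_sum]
  · apply sum_congr rfl
    intro n _
    rw [integral_indicator (hE n)]
    simp
  · intro n _
    exact (integrable_const (1 : ℝ)).indicator (hE n)

lemma var_cnt (E : ℕ → Set Ω) (hE : ∀ n, MeasurableSet (E n)) (N : ℕ) :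
    variance (cnt E N) μ = ∑ n ∈ range N, ∑ m ∈ range N, (μ.real (E n ∩ E m) - μ.real (E n) * μ.real (E m)) := by
  have h := variance_fun_sum' (μ := μ) (s := range N) (X := fun n => (E n).indicator (fun _ => (1 : ℝ)))
    (fun n _ => memLp_ind (E n) (hE n))
  unfold cnt
  rw [h]
  apply sum_congr rfl
  intro n _
  apply sum_congr rfl
  intro m _
  exact cov_ind _ _ (hE n) (hE m)

lemma memLp_cnt (E : ℕ → Set Ω) (hE : ∀ n, MeasurableSet (E n)) (N : ℕ) : MemLp (cnt E N) 2 μ := by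
  have := memLp_finsetSum (μ := μ) (p := 2) (range N) (f := fun n => (E n).indicator (fun _ => (1 : ℝ)))
    (fun n _ => memLp_ind (E n) (hE n))
  exact this

/-- Chebyshev -/
lemma cheb (E : ℕ → Set Ω) (hE : ∀ n, MeasurableSet (E n)) (C : ℝ) (N : ℕ)
    (hcov : ∑ n ∈ range N, ∑ m ∈ range N, (μ.real (E n ∩ E m) - μ.real (E n) * μ.real (E m)) ≤
      C * (1 + ∑ n ∈ range N, μ.real (E n))) (t : ℝ) (ht : 0 < t) :
    μ {ω | t ≤ |cnt E N ω - ∑ n ∈ range N, μ.real (E n)|} ≤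
      ENNReal.ofReal (C * (1 + ∑ n ∈ range N, μ.real (E n)) / t ^ 2) := by
  have h := meas_ge_le_variance_div_sq (memLp_cnt (μ := μ) E hE N) ht
  rw [int_cnt E hE N, var_cnt E hE N] at h
  refine h.trans (ENNReal.ofReal_le_ofReal ?_)
  gcongr

theorem lln (E : ℕ → Set Ω) (hE : ∀ n, MeasurableSet (E n)) (C : ℝ) (hC : 0 ≤ C)
    (hcov : ∀ N, ∑ n ∈ range N, ∑ m ∈ range N, (μ.real (E n ∩ E m) - μ.real (E n) * μ.real (E m)) ≤
      C * (1 + ∑ n ∈ range N, μ.real (E n)))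
    (hdiv : Tendsto (fun N => ∑ n ∈ range N, μ.real (E n)) atTop atTop) :
    ∀ᵐ ω ∂μ, Tendsto (fun N => cnt E N ω / ∑ n ∈ range N, μ.real (E n)) atTop (𝓝 1) := by
  classical
  obtain ⟨M, hM⟩ : ∃ M : ℕ → ℝ, M = fun N => ∑ n ∈ range N, μ.real (E n) := ⟨_, rfl⟩
  have hMe : ∀ N, ∑ n ∈ range N, μ.real (E n) = M N := fun N => by rw [hM]
  simp only [hMe] at hcov hdiv ⊢
  have hMmono : Monotone M := by
    rw [hM]
    intro a b hab
    exact sum_le_sum_of_subset_of_nonneg (range_mono hab) (fun _ _ _ => measureReal_nonneg)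
  have hMs : ∀ N, M (N + 1) ≤ M N + 1 := by
    intro N
    rw [hM]
    simp only
    rw [sum_range_succ]
    linarith [measureReal_le_one (μ := μ) (s := E N)]
  have hM0 : M 0 = 0 := by rw [hM]; simp
  have hex : ∀ k : ℕ, ∃ N, ((k : ℝ)) ^ 2 ≤ M N := fun k => (hdiv.eventually (eventually_ge_atTop _)).exists
  obtain ⟨S, hS⟩ : ∃ S : ℕ → ℕ, S = fun k => Nat.find (hex k) := ⟨_, rfl⟩
  have hS1 : ∀ k : ℕ, ((k : ℝ)) ^ 2 ≤ M (S k) := by
    intro k
    rw [hS]
    exact Nat.find_spec (hex k)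
  have hS2 : ∀ k, M (S k) ≤ (k : ℝ) ^ 2 + 1 := by
    intro k
    rcases Nat.eq_zero_or_pos (S k) with h | h
    · rw [h, hM0]
      positivity
    · have h1 : ¬ ((k : ℝ)) ^ 2 ≤ M (S k - 1) := by
        have : S k - 1 < Nat.find (hex k) := by
          have : Nat.find (hex k) = S k := by rw [hS]
          omega
        exact Nat.find_min (hex k) this
      have h2 := hMs (S k - 1)
      rw [Nat.sub_add_cancel h] at h2
      linarith
  have hSmono : ∀ k N, N < S k → M N < (k : ℝ) ^ 2 := by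
    intro k N h
    rw [hS] at h
    exact not_le.1 (Nat.find_min (hex k) h)
  -- almost surely, for all `ε`
  have key : ∀ j : ℕ, ∀ᵐ ω ∂μ, ∀ᶠ k : ℕ in atTop, |cnt E (S k) ω - M (S k)| < 1 / (j + 1 : ℝ) * M (S k) := by
    intro j
    have hb : ∀ k : ℕ, 1 ≤ k → μ {ω | 1 / (j + 1 : ℝ) * M (S k) ≤ |cnt E (S k) ω - M (S k)|} ≤
        ENNReal.ofReal (2 * C * (j + 1) ^ 2 * (1 / (k : ℝ) ^ 2)) := by
      intro k hk
      have hk1 : (1 : ℝ) ≤ k := by exact_mod_cast hk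
      have hMk : 1 ≤ M (S k) := le_trans (by nlinarith) (hS1 k)
      have h1 := cheb E hE C (S k) (by rw [hMe]; exact hcov (S k)) (1 / (j + 1 : ℝ) * M (S k)) (by positivity)
      rw [hMe] at h1
      refine h1.trans (ENNReal.ofReal_le_ofReal ?_)
      rw [div_le_iff₀ (by positivity)]
      have e : 2 * C * ((j : ℝ) + 1) ^ 2 * (1 / (k : ℝ) ^ 2) * (1 / ((j : ℝ) + 1) * M (S k)) ^ 2 =
          2 * C * M (S k) * (M (S k) / (k : ℝ) ^ 2) := by
        field_simp
      rw [e]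
      have h2 : 1 ≤ M (S k) / (k : ℝ) ^ 2 := by
        rw [le_div_iff₀ (by positivity)]
        linarith [hS1 k]
      have h3 : 0 ≤ C * M (S k) := by positivity
      calc C * (1 + M (S k)) ≤ 2 * C * M (S k) * 1 := by nlinarith
        _ ≤ _ := by
          apply mul_le_mul_of_nonneg_left h2
          linarith
    have hsum : ∑' k : ℕ, μ {ω | 1 / (j + 1 : ℝ) * M (S (k + 1)) ≤ |cnt E (S (k + 1)) ω - M (S (k + 1))|} ≠ ∞ := by
      have h1 : Summable fun k : ℕ => 2 * C * ((j : ℝ) + 1) ^ 2 * (1 / ((k + 1 : ℕ) : ℝ) ^ 2) := by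
        apply Summable.mul_left
        exact (summable_nat_add_iff 1).2 (Real.summable_one_div_nat_pow.2 (by norm_num))
      apply ne_top_of_le_ne_top _ (ENNReal.tsum_le_tsum fun k => hb (k + 1) (by omega))
      rw [← ENNReal.ofReal_tsum_of_nonneg (fun k => by positivity) h1]
      exact ENNReal.ofReal_ne_top
    have h2 := ae_eventually_notMem hsum
    filter_upwards [h2] with ω hω
    obtain ⟨k0, hk0⟩ := eventually_atTop.1 hω
    refine eventually_atTop.2 ⟨k0 + 1, fun k hk => ?_⟩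
    have h3 := hk0 (k - 1) (by omega)
    rw [Nat.sub_add_cancel (by omega)] at h3
    exact not_le.1 h3
  rw [← ae_all_iff] at key
  filter_upwards [key] with ω hω
  have aux : ∀ ε : ℝ, 0 < ε → ε ≤ 1 → ∀ᶠ N in atTop, |cnt E N ω / M N - 1| < ε := by
    intro ε hε hε1
    obtain ⟨j, hj⟩ := exists_nat_one_div_lt (show (0 : ℝ) < ε / 4 by positivity)
    obtain ⟨k0, hk0⟩ := eventually_atTop.1 (hω j)
    obtain ⟨k1, hk1⟩ := exists_nat_ge (16 / ε)
    have hN := hdiv.eventually (eventually_ge_atTop (((k0 + k1 + 1 : ℕ) : ℝ) ^ 2))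
    filter_upwards [hN] with N hN
    obtain ⟨k, hk⟩ : ∃ k : ℕ, k = Nat.sqrt ⌊M N⌋₊ := ⟨_, rfl⟩
    have hMN0 : 0 ≤ M N := le_trans (by positivity) hN
    have hkl : ((k : ℝ)) ^ 2 ≤ M N := by
      have h1 : k * k ≤ ⌊M N⌋₊ := by rw [hk]; exact Nat.sqrt_le _
      have h2 : ((k * k : ℕ) : ℝ) ≤ M N := (Nat.cast_le.2 h1).trans (Nat.floor_le hMN0)
      push_cast at h2
      nlinarith
    have hku : M N < ((k : ℝ) + 1) ^ 2 := by
      have h1 : ⌊M N⌋₊ < (k + 1) * (k + 1) := by rw [hk]; exact Nat.lt_succ_sqrt _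
      have h2 := (Nat.floor_lt hMN0).1 h1
      push_cast at h2
      nlinarith
    have hkk : k0 + k1 + 1 ≤ k := by
      by_contra hcon
      rw [not_le] at hcon
      have h1 : ((k : ℝ)) + 1 ≤ ((k0 + k1 + 1 : ℕ) : ℝ) := by exact_mod_cast hcon
      have h2 : (0 : ℝ) ≤ k := Nat.cast_nonneg k
      have h3 : ((k : ℝ) + 1) ^ 2 ≤ (((k0 + k1 + 1 : ℕ) : ℝ)) ^ 2 := pow_le_pow_left₀ (by linarith) h1 2
      linarith
    have hkr : 16 / ε ≤ (k : ℝ) := hk1.trans (by exact_mod_cast (by omega : k1 ≤ k))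
    rw [div_le_iff₀ hε] at hkr
    have hk1' : (1 : ℝ) ≤ k := by exact_mod_cast (by omega : 1 ≤ k)
    have hSk : S k ≤ N := by
      rw [hS]
      exact Nat.find_min' (hex k) hkl
    have hSk1 : N ≤ S (k + 1) := by
      by_contra hcon
      rw [not_le] at hcon
      have h1 := (hS1 (k + 1)).trans (hMmono hcon.le)
      push_cast at h1
      linarith
    have a1 := hk0 k (by omega)
    have a2 := hk0 (k + 1) (by omega)
    have a3 := cnt_mono E ω hSk
    have a4 := cnt_mono E ω hSk1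
    have a5 := hS1 k
    have a6 := hS2 (k + 1)
    push_cast at a6
    have a7 := abs_lt.1 a1
    have a8 := abs_lt.1 a2
    have hMSk : 0 ≤ M (S k) := le_trans (by positivity) a5
    have hMSk1 : 0 ≤ M (S (k + 1)) := le_trans (by positivity) (hS1 (k + 1))
    have b1 : 1 / ((j : ℝ) + 1) * M (S (k + 1)) ≤ ε / 4 * M (S (k + 1)) := mul_le_mul_of_nonneg_right hj.le hMSk1
    have b2 : 1 / ((j : ℝ) + 1) * M (S k) ≤ ε / 4 * M (S k) := mul_le_mul_of_nonneg_right hj.le hMSk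
    have b3 : ((k : ℝ) + 1) ^ 2 + 1 ≤ (1 + ε / 4) * (k : ℝ) ^ 2 := by
      have : 16 * (k : ℝ) ≤ k * ε * k := by
        have := mul_le_mul_of_nonneg_right hkr (Nat.cast_nonneg (α := ℝ) k)
        linarith
      linarith
    have hMN : 0 < M N := lt_of_lt_of_le (by positivity) hkl
    rw [abs_lt, lt_sub_iff_add_lt, sub_lt_iff_lt_add, lt_div_iff₀ hMN, div_lt_iff₀ hMN]
    constructor
    · have c1 : (1 - ε / 4) * M (S k) ≤ cnt E N ω := by linarith [a7.1]
      have c2 : (1 - ε / 4) * (k : ℝ) ^ 2 ≤ (1 - ε / 4) * M (S k) := mul_le_mul_of_nonneg_left a5 (by linarith)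
      have c3 : M N < (1 + ε / 4) * (k : ℝ) ^ 2 := by linarith
      have c4 : (1 - ε) * M N ≤ (1 - ε) * ((1 + ε / 4) * (k : ℝ) ^ 2) := mul_le_mul_of_nonneg_left c3.le (by linarith)
      have hk2 : 0 < (k : ℝ) ^ 2 := by positivity
      have c5 : (1 - ε) * ((1 + ε / 4) * (k : ℝ) ^ 2) = (1 - ε / 4) * (k : ℝ) ^ 2 - (ε / 2 * (k : ℝ) ^ 2 + ε ^ 2 / 4 * (k : ℝ) ^ 2) := by
        ring
      have c6 : 0 < ε / 2 * (k : ℝ) ^ 2 := by positivity
      have c7 : 0 < ε ^ 2 / 4 * (k : ℝ) ^ 2 := by positivity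
      have c8 : (-ε + 1) * M N = (1 - ε) * M N := by ring
      rw [c8]
      linarith
    · have c1 : cnt E N ω ≤ (1 + ε / 4) * M (S (k + 1)) := by linarith [a8.2]
      have c2 : (1 + ε / 4) * M (S (k + 1)) ≤ (1 + ε / 4) * ((1 + ε / 4) * (k : ℝ) ^ 2) :=
        mul_le_mul_of_nonneg_left (by linarith) (by linarith)
      have c3 : (1 + ε / 4) * ((1 + ε / 4) * (k : ℝ) ^ 2) ≤ (1 + ε / 4) * ((1 + ε / 4) * M N) := by gcongr
      have c4 : (1 + ε / 4) * ((1 + ε / 4) * M N) = (ε + 1) * M N - ε / 2 * (1 - ε / 8) * M N := by ring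
      have c5 : 0 < ε / 2 * (1 - ε / 8) * M N := by
        have : 0 < 1 - ε / 8 := by linarith
        positivity
      linarith
  rw [Metric.tendsto_atTop]
  intro ε hε
  obtain ⟨N0, hN0⟩ := eventually_atTop.1 (aux (min ε 1) (by positivity) (min_le_right _ _))
  refine ⟨N0, fun N hN => ?_⟩
  rw [Real.dist_eq]
  exact (hN0 N hN).trans_le (min_le_left _ _)

end Pool.Agent.Run7.h189.PT
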