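import Pool.Agent.Run7.h189.PT.Size
import Pool.Agent.Run7.h189.PT.Prob

/-!
# Random dilates, part 6: the dichotomy
-/

set_option autoImplicit false

namespace Pool.Agent.Run7.h189.PT

open MeasureTheory ProbabilityTheory Filter Finset Asymptotics
open scoped Topology ENNReal

variable {Ω : Type} [MeasurableSpace Ω] {μ : Measure Ω} [IsProbabilityMeasure μ] {θ : ℕ → Ω → ℝ}

/-- the events from `n0` on -/
def E (θ : ℕ → Ω → ℝ) (l : ℕ → ℕ) (n0 n : ℕ) : Set Ω := if n0 ≤ n then ev θ n (l n) else ∅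

lemma meas_E (hm : ∀ j, Measurable (θ j)) (l : ℕ → ℕ) (n0 n : ℕ) : MeasurableSet (E θ l n0 n) := by
  unfold E
  split_ifs
  · exact meas_ev hm n _
  · exact MeasurableSet.empty

/-- the sum of the covariances -/
lemma cov_sum : ∃ (C : ℝ) (n1 : ℕ), 0 ≤ C ∧ 2 ≤ n1 ∧ ∀ {Ω : Type} [MeasurableSpace Ω] (μ : Measure Ω) [IsProbabilityMeasure μ]
    (θ : ℕ → Ω → ℝ), (∀ j, Measurable (θ j)) → iIndepFun θ μ → (∀ j, μ.map (θ j) = U) → ∀ (l : ℕ → ℕ) (n0 : ℕ), n1 ≤ n0 →
      ∀ N : ℕ, ∑ n ∈ range N, ∑ m ∈ range N, (μ.real (E θ l n0 n ∩ E θ l n0 m) - μ.real (E θ l n0 n) * μ.real (E θ l n0 m)) ≤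
        C * (1 + ∑ n ∈ range N, μ.real (E θ l n0 n)) := by
  obtain ⟨C, n1, hC, hn1, h⟩ := cov_bd
  refine ⟨1 + 2 * C, n1, by positivity, hn1, ?_⟩
  intro Ω _ μ _ θ hm hi hlaw l n0 hn0 N
  obtain ⟨Q, hQ⟩ : ∃ Q : ℕ → ℝ, Q = fun n => μ.real (E θ l n0 n) := ⟨_, rfl⟩
  have hQn : ∀ n, μ.real (E θ l n0 n) = Q n := fun n => by rw [hQ]
  have hQ0 : ∀ n, 0 ≤ Q n := fun n => by rw [← hQn]; exact measureReal_nonneg
  have hQ1 : ∀ n, Q n ≤ 1 := fun n => by rw [← hQn]; exact measureReal_le_one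
  have hlt : ∀ n m, n < m → μ.real (E θ l n0 n ∩ E θ l n0 m) - Q n * Q m ≤ C / m * Q m := by
    intro n m hnm
    have hpos : 0 ≤ C / m * Q m := mul_nonneg (by positivity) (hQ0 m)
    by_cases h0 : n0 ≤ n
    · have h1 : E θ l n0 n = ev θ n (l n) := if_pos h0
      have h2 : E θ l n0 m = ev θ m (l m) := if_pos (h0.trans hnm.le)
      rw [← hQn, ← hQn, h1, h2]
      exact h μ θ hm hi hlaw n m (l n) (l m) (hn0.trans h0) hnm
    · have h1 : E θ l n0 n = ∅ := if_neg h0
      have h2 : μ.real (E θ l n0 n ∩ E θ l n0 m) = 0 := by rw [h1]; simp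
      rw [h2]
      have := mul_nonneg (hQ0 n) (hQ0 m)
      linarith
  have key : ∀ n m, μ.real (E θ l n0 n ∩ E θ l n0 m) - μ.real (E θ l n0 n) * μ.real (E θ l n0 m) ≤
      (if n = m then Q m else 0) + (if n < m then C / m * Q m else 0) + (if m < n then C / n * Q n else 0) := by
    intro n m
    rw [hQn, hQn]
    rcases lt_trichotomy n m with h1 | h1 | h1
    · rw [if_neg h1.ne, if_pos h1, if_neg (not_lt.2 h1.le)]
      linarith [hlt n m h1]
    · subst h1
      rw [if_pos rfl, if_neg (lt_irrefl _), Set.inter_self, hQn]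
      have := mul_nonneg (hQ0 n) (hQ0 n)
      linarith
    · rw [if_neg h1.ne', if_neg (not_lt.2 h1.le), if_pos h1, Set.inter_comm, mul_comm (Q n)]
      linarith [hlt m n h1]
  refine (sum_le_sum fun n _ => sum_le_sum fun m _ => key n m).trans ?_
  simp only [sum_add_distrib]
  have s1 : ∑ n ∈ range N, ∑ m ∈ range N, (if n = m then Q m else 0) = ∑ n ∈ range N, Q n := by
    apply sum_congr rfl
    intro n hn
    rw [sum_ite_eq, if_pos hn]
  have aux : ∀ m ∈ range N, ∑ n ∈ range N, (if n < m then C / m * Q m else 0) ≤ C * Q m := by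
    intro m hm
    rw [← sum_filter, sum_const, nsmul_eq_mul]
    have h1 : (range N).filter (fun n => n < m) = range m := by
      ext n
      rw [mem_filter, mem_range, mem_range]
      rw [mem_range] at hm
      omega
    rw [h1, card_range]
    rcases Nat.eq_zero_or_pos m with h2 | h2
    · subst h2
      simp only [Nat.cast_zero, zero_mul]
      exact mul_nonneg hC (hQ0 0)
    · have h3 : (0 : ℝ) < m := by exact_mod_cast h2
      apply le_of_eq
      field_simp
  have s2 : ∑ n ∈ range N, ∑ m ∈ range N, (if n < m then C / m * Q m else 0) ≤ C * ∑ n ∈ range N, Q n := by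
    rw [sum_comm, mul_sum]
    exact sum_le_sum aux
  have s3 : ∑ n ∈ range N, ∑ m ∈ range N, (if m < n then C / n * Q n else 0) ≤ C * ∑ n ∈ range N, Q n := by
    rw [mul_sum]
    exact sum_le_sum aux
  have s4 : 0 ≤ ∑ n ∈ range N, Q n := sum_nonneg fun n _ => hQ0 n
  rw [s1]
  simp only [hQn]
  nlinarith

lemma sq_bd (N : ℕ) : ∑ n ∈ range N, 1 / (n : ℝ) ^ 2 ≤ ∑' n : ℕ, 1 / (n : ℝ) ^ 2 :=
  (Real.summable_one_div_nat_pow.2 (by norm_num)).sum_le_tsum _ (fun n _ => by positivity)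

lemma Q_eq (hm : ∀ j, Measurable (θ j)) (hi : iIndepFun θ μ) (hlaw : ∀ j, μ.map (θ j) = U) (l : ℕ → ℕ) (n0 n : ℕ) (hn : n0 ≤ n) :
    μ.real (E θ l n0 n) = (1 - pr n) ^ (l n) := by
  unfold E
  rw [if_pos hn, P_ev hm hi hlaw]
  rfl

lemma Q_o (hm : ∀ j, Measurable (θ j)) (hi : iIndepFun θ μ) (hlaw : ∀ j, μ.map (θ j) = U) (l : ℕ → ℕ) (n0 : ℕ) :
    (fun n => μ.real (E θ l n0 n) - w l n) =o[atTop] (fun n : ℕ => w l n + 1 / (n : ℝ) ^ 2) := by
  obtain ⟨K, n1, hK, hn1, h⟩ := P_w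
  have ht : Tendsto (fun n : ℕ => K * (Real.log (n : ℝ) / n) + 1 / n) atTop (𝓝 0) := by
    have h1 := (Real.isLittleO_log_id_atTop.tendsto_div_nhds_zero.comp tendsto_natCast_atTop_atTop).const_mul K
    have h2 := h1.add tendsto_one_div_atTop_nhds_zero_nat
    simpa using h2
  rw [isLittleO_iff]
  intro c hc
  filter_upwards [eventually_ge_atTop (n1 + n0), ht.eventually (gt_mem_nhds hc)] with n hn hcn
  rw [Q_eq hm hi hlaw l n0 n (by omega)]
  have hg : 0 ≤ w l n + 1 / (n : ℝ) ^ 2 := add_nonneg (w_pos l n).le (by positivity)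
  rw [Real.norm_eq_abs, Real.norm_eq_abs, abs_of_nonneg hg]
  exact (h l n (by omega)).trans (mul_le_mul_of_nonneg_right hcn.le hg)

/-- the convergent case -/
theorem conv (hm : ∀ j, Measurable (θ j)) (hi : iIndepFun θ μ) (hlaw : ∀ j, μ.map (θ j) = U) (l : ℕ → ℕ)
    (hs : Summable (w l)) : ∀ᵐ ω ∂μ, ∀ᶠ n in atTop, ω ∉ ev θ n (l n) := by
  have h0 := Q_o hm hi hlaw l 0
  have hg : Summable (fun n : ℕ => w l n + 1 / (n : ℝ) ^ 2) := hs.add (Real.summable_one_div_nat_pow.2 (by norm_num))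
  have h1 : Summable (fun n => μ.real (E θ l 0 n) - w l n) := summable_of_isBigO_nat hg h0.isBigO
  have h2 : Summable (fun n => μ.real (E θ l 0 n)) := by
    have := h1.add hs
    simpa using this
  have h3 : ∑' n, μ (E θ l 0 n) ≠ ∞ := by
    have e : ∀ n, μ (E θ l 0 n) = ENNReal.ofReal (μ.real (E θ l 0 n)) := fun n => by
      rw [Measure.real, ENNReal.ofReal_toReal (measure_ne_top _ _)]
    simp only [e]
    rw [← ENNReal.ofReal_tsum_of_nonneg (fun n => measureReal_nonneg) h2]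
    exact ENNReal.ofReal_ne_top
  filter_upwards [ae_eventually_notMem h3] with ω hω
  filter_upwards [hω] with n hn
  have : E θ l 0 n = ev θ n (l n) := if_pos (Nat.zero_le _)
  rwa [this] at hn

open Classical in
/-- the divergent case -/
theorem dvg (hm : ∀ j, Measurable (θ j)) (hi : iIndepFun θ μ) (hlaw : ∀ j, μ.map (θ j) = U) (l : ℕ → ℕ)
    (hs : ¬ Summable (w l)) : ∀ᵐ ω ∂μ, Tendsto (fun N : ℕ => (((Icc 1 N).filter fun n => ω ∈ ev θ n (l n)).card : ℝ) /
      ∑ n ∈ Icc 1 N, w l n) atTop (𝓝 1) := by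
  obtain ⟨C, n0, hC, hn0, hcov⟩ := cov_sum
  obtain ⟨S, hS⟩ : ∃ S : ℕ → ℝ, S = fun N => ∑ n ∈ range N, w l n := ⟨_, rfl⟩
  have hSt : Tendsto S atTop atTop := by
    rw [hS]
    exact (not_summable_iff_tendsto_nat_atTop_of_nonneg fun n => (w_pos l n).le).1 hs
  obtain ⟨c, hc⟩ : ∃ c : ℝ, c = ∑' n : ℕ, 1 / (n : ℝ) ^ 2 := ⟨_, rfl⟩
  have hc0 : 0 ≤ c := by rw [hc]; exact tsum_nonneg fun n => by positivity
  have h1 := (Q_o hm hi hlaw l n0).sum_range (fun n => add_nonneg (w_pos l n).le (by positivity)) (by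
    apply tendsto_atTop_mono _ hSt
    intro N
    rw [hS]
    exact sum_le_sum fun n _ => by
      have : 0 ≤ 1 / (n : ℝ) ^ 2 := by positivity
      linarith)
  have h2 : (fun N : ℕ => ∑ n ∈ range N, (w l n + 1 / (n : ℝ) ^ 2)) =O[atTop] S := by
    apply IsBigO.of_bound 2
    filter_upwards [hSt.eventually (eventually_ge_atTop c)] with N hN
    have hS0 : 0 ≤ S N := hc0.trans hN
    have h3 : 0 ≤ ∑ n ∈ range N, (w l n + 1 / (n : ℝ) ^ 2) := sum_nonneg fun n _ => add_nonneg (w_pos l n).le (by positivity)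
    rw [Real.norm_eq_abs, Real.norm_eq_abs, abs_of_nonneg hS0, abs_of_nonneg h3, sum_add_distrib]
    have h4 := sq_bd N
    rw [← hc] at h4
    have h5 : ∑ n ∈ range N, w l n = S N := by rw [hS]
    rw [h5]
    linarith
  have h3 := h1.trans_isBigO h2
  have hEq : (fun N => ∑ n ∈ range N, μ.real (E θ l n0 n)) ~[atTop] S := by
    unfold IsEquivalent
    refine h3.congr_left ?_
    intro N
    rw [sum_sub_distrib, hS]
    rfl
  have hdiv : Tendsto (fun N => ∑ n ∈ range N, μ.real (E θ l n0 n)) atTop atTop := hEq.symm.tendsto_atTop hSt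
  have hlln := lln (E θ l n0) (meas_E hm l n0) C hC (hcov μ θ hm hi hlaw l n0 le_rfl) hdiv
  filter_upwards [hlln] with ω hω
  have hne : ∀ᶠ N : ℕ in atTop, (∑ n ∈ range N, μ.real (E θ l n0 n)) ≠ 0 := by
    filter_upwards [hdiv.eventually (eventually_gt_atTop 0)] with N hN
    exact hN.ne'
  have k1 : (fun N => cnt (E θ l n0) N ω) ~[atTop] S := ((isEquivalent_iff_tendsto_one hne).2 hω).trans hEq
  have hS1 : Tendsto (fun N => S (N + 1)) atTop atTop := hSt.comp (tendsto_add_atTop_nat 1)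
  have k2 : (fun N => cnt (E θ l n0) (N + 1) ω) ~[atTop] (fun N => S (N + 1)) := k1.comp_tendsto (tendsto_add_atTop_nat 1)
  have hbd : ∀ f : ℕ → ℝ, (∃ B : ℝ, ∀ N, |f N| ≤ B) → f =o[atTop] (fun N => S (N + 1)) := by
    intro f ⟨B, hB⟩
    rw [isLittleO_iff]
    intro ε hε
    filter_upwards [hS1.eventually (eventually_ge_atTop (|B| / ε))] with N hN
    have : 0 ≤ S (N + 1) := le_trans (by positivity) hN
    rw [Real.norm_eq_abs, Real.norm_eq_abs, abs_of_nonneg this]
    rw [div_le_iff₀ hε] at hN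
    calc |f N| ≤ B := hB N
      _ ≤ |B| := le_abs_self B
      _ ≤ _ := by linarith
  have k3 : (fun N : ℕ => (((Icc 1 N).filter fun n => ω ∈ ev θ n (l n)).card : ℝ)) ~[atTop] (fun N => S (N + 1)) := by
    have hd : (fun N : ℕ => (((Icc 1 N).filter fun n => ω ∈ ev θ n (l n)).card : ℝ) - cnt (E θ l n0) (N + 1) ω) =o[atTop]
        (fun N => S (N + 1)) := by
      apply hbd
      refine ⟨n0, fun N => ?_⟩
      have e1 : cnt (E θ l n0) (N + 1) ω = (((range (N + 1)).filter fun n => n0 ≤ n ∧ ω ∈ ev θ n (l n)).card : ℝ) := by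
        unfold cnt
        rw [card_filter]
        push_cast
        apply sum_congr rfl
        intro n _
        unfold E
        by_cases h4 : n0 ≤ n
        · rw [if_pos h4]
          by_cases h5 : ω ∈ ev θ n (l n)
          · rw [Set.indicator_of_mem h5, if_pos ⟨h4, h5⟩]
          · rw [Set.indicator_of_notMem h5, if_neg (fun h => h5 h.2)]
        · rw [if_neg h4, if_neg (fun h => h4 h.1)]
          simp
      have e2 : ((range (N + 1)).filter fun n => n0 ≤ n ∧ ω ∈ ev θ n (l n)) ⊆ (Icc 1 N).filter fun n => ω ∈ ev θ n (l n) := by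
        intro n hn
        rw [mem_filter, mem_range] at hn
        rw [mem_filter, mem_Icc]
        exact ⟨⟨by omega, by omega⟩, hn.2.2⟩
      have e3 : (Icc 1 N).filter (fun n => ω ∈ ev θ n (l n)) ⊆ ((range (N + 1)).filter fun n => n0 ≤ n ∧ ω ∈ ev θ n (l n)) ∪ range n0 := by
        intro n hn
        rw [mem_filter, mem_Icc] at hn
        rw [mem_union, mem_filter, mem_range, mem_range]
        by_cases h4 : n0 ≤ n
        · exact Or.inl ⟨by omega, h4, hn.2⟩
        · exact Or.inr (by omega)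
      have e4 : (((range (N + 1)).filter fun n => n0 ≤ n ∧ ω ∈ ev θ n (l n)).card : ℝ) ≤
          (((Icc 1 N).filter fun n => ω ∈ ev θ n (l n)).card : ℝ) := by exact_mod_cast card_le_card e2
      have e5 : (((Icc 1 N).filter fun n => ω ∈ ev θ n (l n)).card : ℝ) ≤
          (((range (N + 1)).filter fun n => n0 ≤ n ∧ ω ∈ ev θ n (l n)).card : ℝ) + n0 := by
        have := (card_le_card e3).trans (card_union_le _ _)
        rw [card_range] at this
        exact_mod_cast this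
      rw [e1, abs_le]
      have : (0 : ℝ) ≤ n0 := Nat.cast_nonneg _
      constructor <;> linarith
    have := k2.add_isLittleO hd
    refine this.congr_left (Eventually.of_forall fun N => ?_)
    simp only [Pi.add_apply]
    ring
  have k4 : (fun N : ℕ => ∑ n ∈ Icc 1 N, w l n) ~[atTop] (fun N => S (N + 1)) := by
    unfold IsEquivalent
    apply hbd
    refine ⟨w l 0, fun N => ?_⟩
    have e1 : S (N + 1) = ∑ n ∈ Icc 1 N, w l n + w l 0 := by
      have e2 : range (N + 1) = insert 0 (Icc 1 N) := by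
        ext n
        rw [mem_range, mem_insert, mem_Icc]
        omega
      rw [hS]
      simp only
      rw [e2, sum_insert (by simp), add_comm]
    simp only [Pi.sub_apply]
    rw [e1, sub_add_cancel_left, abs_neg, abs_of_pos (w_pos l 0)]
  have k5 := k3.trans k4.symm
  rw [isEquivalent_iff_tendsto_one] at k5
  · exact k5
  · filter_upwards [eventually_ge_atTop 1] with N hN
    apply ne_of_gt
    exact sum_pos (fun n _ => w_pos l n) ⟨1, mem_Icc.2 ⟨le_rfl, hN⟩⟩

end Pool.Agent.Run7.h189.PT
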