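import Pool.Agent.Run7.h189.PT.Count

/-!
# Random dilates, part 9: lengths `l n ~ c n log n`, and all `n` at once
-/

set_option autoImplicit false

namespace Pool.Agent.Run7.h189.PT

open MeasureTheory ProbabilityTheory Filter Finset Asymptotics
open scoped Topology ENNReal

variable {Ω : Type} [MeasurableSpace Ω] {μ : Measure Ω} [IsProbabilityMeasure μ] {θ : ℕ → Ω → ℝ}

lemma npr : Tendsto (fun n : ℕ => (n : ℝ) * pr n) atTop (𝓝 (1 / Real.log 2)) := by
  obtain ⟨K, hK, h⟩ := one_bd
  rw [tendsto_iff_norm_sub_tendsto_zero]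
  have h1 : Tendsto (fun n : ℕ => K / (n : ℝ)) atTop (𝓝 0) := tendsto_const_div_atTop_nhds_zero_nat K
  refine squeeze_zero' (Eventually.of_forall fun n => norm_nonneg _) ?_ h1
  filter_upwards [eventually_ge_atTop 1] with n hn
  have hn0 : (0 : ℝ) < n := by exact_mod_cast hn
  have h2 := h n hn
  have hl : 0 < Real.log 2 := Real.log_pos (by norm_num)
  have e : (n : ℝ) * pr n - 1 / Real.log 2 = n * ((one n : ℝ) / 2 ^ n - 1 / (n * Real.log 2)) := by
    unfold pr
    field_simp
  rw [Real.norm_eq_abs, e, abs_mul, abs_of_pos hn0]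
  calc (n : ℝ) * |(one n : ℝ) / 2 ^ n - 1 / (n * Real.log 2)| ≤ n * (K / n ^ 2) := mul_le_mul_of_nonneg_left h2 hn0.le
    _ = K / n := by field_simp

lemma prl (l : ℕ → ℕ) (c : ℝ) (hl : Tendsto (fun n : ℕ => (l n : ℝ) / (n * Real.log n)) atTop (𝓝 c)) :
    Tendsto (fun n : ℕ => pr n * l n / Real.log n) atTop (𝓝 (c / Real.log 2)) := by
  have h := npr.mul hl
  have e : 1 / Real.log 2 * c = c / Real.log 2 := by ring
  rw [e] at h
  refine h.congr' ?_
  filter_upwards [eventually_ge_atTop 2] with n hn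
  have hn0 : (0 : ℝ) < n := by exact_mod_cast (by omega : 0 < n)
  have hl : 0 < Real.log (n : ℝ) := Real.log_pos (by exact_mod_cast (by omega : 1 < n))
  field_simp

/-- the rate function of the Poisson law with mean `m` -/
noncomputable def rate (m κ : ℝ) : ℝ := κ * Real.log (κ / m) - κ + m

lemma ev_logpos : ∀ᶠ n : ℕ in atTop, 0 < Real.log (n : ℝ) := by
  filter_upwards [eventually_ge_atTop 2] with n hn
  exact Real.log_pos (by exact_mod_cast (by omega : 1 < n))

theorem upper_rate (hm : ∀ j, Measurable (θ j)) (hi : iIndepFun θ μ) (hlaw : ∀ j, μ.map (θ j) = U) (l : ℕ → ℕ) (c κ : ℝ) (hc : 0 < c)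
    (hl : Tendsto (fun n : ℕ => (l n : ℝ) / (n * Real.log n)) atTop (𝓝 c)) (hκ : c / Real.log 2 < κ)
    (hr : 1 < rate (c / Real.log 2) κ) : ∀ᵐ ω ∂μ, ∀ᶠ n : ℕ in atTop, X θ n (l n) ω < κ * Real.log n := by
  have hl2 : 0 < Real.log 2 := Real.log_pos (by norm_num)
  obtain ⟨m, hme⟩ : ∃ m, m = c / Real.log 2 := ⟨_, rfl⟩
  have hm0 : 0 < m := by rw [hme]; positivity
  rw [← hme] at hκ hr
  have hκ0 : 0 < κ := hm0.trans hκ
  obtain ⟨r, hre⟩ : ∃ r, r = rate m κ := ⟨_, rfl⟩
  rw [← hre] at hr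
  have ht : 0 < Real.log (κ / m) := Real.log_pos (by rw [lt_div_iff₀ hm0]; linarith)
  have hd : 0 < (r - 1) * m / (2 * κ) := by
    have : 0 < r - 1 := by linarith
    positivity
  apply upper hm hi hlaw l κ (m + (r - 1) * m / (2 * κ)) (Real.log (κ / m)) ht.le
  · have h := (prl l c hl).eventually (gt_mem_nhds (show c / Real.log 2 < m + (r - 1) * m / (2 * κ) by rw [← hme]; linarith))
    filter_upwards [h, ev_logpos] with n h1 h2
    rw [div_lt_iff₀ h2] at h1
    exact h1.le
  · rw [Real.exp_log (by positivity)]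
    have e : κ * Real.log (κ / m) - (m + (r - 1) * m / (2 * κ)) * (κ / m - 1) = r - (r - 1) / 2 + (r - 1) * m / (2 * κ) := by
      rw [hre, rate]
      field_simp
      ring
    rw [e]
    linarith

theorem lower_rate (hm : ∀ j, Measurable (θ j)) (hi : iIndepFun θ μ) (hlaw : ∀ j, μ.map (θ j) = U) (l : ℕ → ℕ) (c κ : ℝ) (hc : 0 < c)
    (hl : Tendsto (fun n : ℕ => (l n : ℝ) / (n * Real.log n)) atTop (𝓝 c)) (hκ0 : 0 < κ) (hκ : κ < c / Real.log 2)
    (hr : 1 < rate (c / Real.log 2) κ) : ∀ᵐ ω ∂μ, ∀ᶠ n : ℕ in atTop, κ * Real.log n < X θ n (l n) ω := by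
  have hl2 : 0 < Real.log 2 := Real.log_pos (by norm_num)
  obtain ⟨m, hme⟩ : ∃ m, m = c / Real.log 2 := ⟨_, rfl⟩
  have hm0 : 0 < m := by rw [hme]; positivity
  rw [← hme] at hκ hr
  obtain ⟨r, hre⟩ : ∃ r, r = rate m κ := ⟨_, rfl⟩
  rw [← hre] at hr
  have ht : 0 < Real.log (m / κ) := Real.log_pos (by rw [lt_div_iff₀ hκ0]; linarith)
  apply lower hm hi hlaw l κ (m - (r - 1) / 2) (Real.log (m / κ)) ht.le
  · have h := (prl l c hl).eventually (lt_mem_nhds (show m - (r - 1) / 2 < c / Real.log 2 by rw [← hme]; linarith))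
    filter_upwards [h, ev_logpos] with n h1 h2
    rw [lt_div_iff₀ h2] at h1
    exact h1.le
  · rw [Real.exp_neg, Real.exp_log (by positivity), inv_div]
    have e0 : Real.log (κ / m) = -Real.log (m / κ) := by rw [← Real.log_inv, inv_div]
    have e : (m - (r - 1) / 2) * (1 - κ / m) - κ * Real.log (m / κ) = r - (r - 1) / 2 + (r - 1) / 2 * (κ / m) := by
      rw [hre, rate, e0]
      field_simp
      ring
    rw [e]
    have : 0 < (r - 1) / 2 * (κ / m) := by
      have : 0 < r - 1 := by linarith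
      positivity
    linarith

lemma rate_hi : 1 < rate (1 / Real.log 2) 3.5 := by
  have h1 := Real.log_two_gt_d9
  have h2 := inv_log_two
  have hl2 : 0 < Real.log 2 := by linarith
  have e : (3.5 : ℝ) / (1 / Real.log 2) = 3.5 * Real.log 2 := by field_simp
  have h3 : (14 / 11 : ℝ) * Real.log 2 ≤ Real.log (3.5 * Real.log 2) := by
    have h4 : Real.log ((2 : ℝ) ^ 14) ≤ Real.log ((3.5 * Real.log 2) ^ 11) := by
      apply Real.log_le_log (by norm_num)
      calc (2 : ℝ) ^ 14 ≤ (2.4258 : ℝ) ^ 11 := by norm_num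
        _ ≤ _ := by
          apply pow_le_pow_left₀ (by norm_num)
          linarith
    rw [Real.log_pow, Real.log_pow] at h4
    push_cast at h4
    linarith
  rw [rate, e]
  nlinarith

lemma rate_lo : 1 < rate (1 / Real.log 2) 0.12 := by
  have h1 := Real.log_two_gt_d9
  have h1' := Real.log_two_lt_d9
  have h2 := inv_log_two
  have hl2 : 0 < Real.log 2 := by linarith
  have e : (0.12 : ℝ) / (1 / Real.log 2) = 0.12 * Real.log 2 := by field_simp
  have h3 : -(18 / 5 : ℝ) * Real.log 2 ≤ Real.log (0.12 * Real.log 2) := by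
    have h4 : Real.log (((2 : ℝ) ^ 18)⁻¹) ≤ Real.log ((0.12 * Real.log 2) ^ 5) := by
      apply Real.log_le_log (by norm_num)
      calc ((2 : ℝ) ^ 18)⁻¹ ≤ (0.0831 : ℝ) ^ 5 := by norm_num
        _ ≤ _ := by
          apply pow_le_pow_left₀ (by norm_num)
          linarith
    rw [Real.log_inv, Real.log_pow, Real.log_pow] at h4
    push_cast at h4
    linarith
  rw [rate, e]
  nlinarith

/-- more than `c n log n` dilates, `c > log 2` -/
lemma summ_w (l : ℕ → ℕ) (c : ℝ) (hc : Real.log 2 < c) (hl : ∀ᶠ n : ℕ in atTop, c * n * Real.log n ≤ l n) : Summable (w l) := by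
  have hl2 : 0 < Real.log 2 := Real.log_pos (by norm_num)
  have h1 : Summable fun n : ℕ => 1 / (n : ℝ) ^ (c / Real.log 2) :=
    Real.summable_one_div_nat_rpow.2 (by rw [lt_div_iff₀ hl2]; linarith)
  refine summable_of_isBigO_nat h1 ?_
  apply IsBigO.of_bound 1
  filter_upwards [hl, eventually_ge_atTop 1] with n h2 h3
  have hn0 : (0 : ℝ) < n := by exact_mod_cast h3
  rw [one_mul, Real.norm_eq_abs, Real.norm_eq_abs, abs_of_pos (w_pos l n), abs_of_pos (by positivity), w,
    Real.rpow_def_of_pos hn0, one_div, ← Real.exp_neg]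
  apply Real.exp_le_exp.2
  rw [neg_le_neg_iff, le_div_iff₀ (by positivity)]
  have e : Real.log n * (c / Real.log 2) * (n * Real.log 2) = c * n * Real.log n := by field_simp
  rw [e]
  exact h2

/-- at most `(log 2) n log n` dilates -/
lemma nsumm_w (l : ℕ → ℕ) (hl : ∀ᶠ n : ℕ in atTop, (l n : ℝ) ≤ Real.log 2 * n * Real.log n) : ¬ Summable (w l) := by
  intro hs
  apply Real.not_summable_one_div_natCast
  refine summable_of_isBigO_nat hs ?_
  apply IsBigO.of_bound 1
  have hl2 : 0 < Real.log 2 := Real.log_pos (by norm_num)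
  filter_upwards [hl, eventually_ge_atTop 1] with n h2 h3
  have hn0 : (0 : ℝ) < n := by exact_mod_cast h3
  rw [one_mul, Real.norm_eq_abs, Real.norm_eq_abs, abs_of_pos (w_pos l n), abs_of_pos (by positivity), w]
  have e : 1 / (n : ℝ) = Real.exp (-Real.log n) := by rw [Real.exp_neg, Real.exp_log hn0, one_div]
  rw [e]
  apply Real.exp_le_exp.2
  rw [neg_le_neg_iff, div_le_iff₀ (by positivity)]
  linarith

lemma pr_pos (n : ℕ) (hn : 1 ≤ n) : 0 < pr n := by
  obtain ⟨p, hp, h1, h2⟩ := Nat.exists_prime_lt_and_le_two_mul (2 ^ n) (by positivity)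
  have h3 : 0 < one n := by
    unfold one
    apply card_pos.2
    refine ⟨p, ?_⟩
    rw [mem_filter, mem_Ico]
    refine ⟨⟨h1.le, lt_of_le_of_ne (by rw [pow_succ]; omega) ?_⟩, hp⟩
    intro h
    rw [h] at hp
    exact Nat.Prime.not_prime_pow (by omega) hp
  unfold pr
  have : (0 : ℝ) < one n := by exact_mod_cast h3
  positivity

lemma exp_neg_two (y : ℝ) (h0 : 0 ≤ y) (h1 : y ≤ 1 / 2) : Real.exp (-(2 * y)) ≤ 1 - y := by
  rw [Real.exp_neg, inv_le_comm₀ (Real.exp_pos _) (by linarith)]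
  have h2 := Real.add_one_le_exp (2 * y)
  refine le_trans ?_ h2
  rw [inv_eq_one_div, div_le_iff₀ (by linarith)]
  nlinarith [mul_nonneg h0 (by linarith : 0 ≤ 1 - 2 * y)]

/-- with positive probability there is a prime for every `n ≥ 1` -/
theorem all_n (hm : ∀ j, Measurable (θ j)) (hi : iIndepFun θ μ) (hlaw : ∀ j, μ.map (θ j) = U) (l : ℕ → ℕ)
    (hl : ∀ n, 1 ≤ n → n ≤ l n) (hs : Summable (w l)) : 0 < μ {ω | ∀ n, 1 ≤ n → ω ∉ ev θ n (l n)} := by
  obtain ⟨K, n1, hK, hn1, hsz, hb⟩ := pr_size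
  -- the probabilities are summable
  have hg : Summable (fun n : ℕ => w l n + 1 / (n : ℝ) ^ 2) := hs.add (Real.summable_one_div_nat_pow.2 (by norm_num))
  have hQ : Summable (fun n => (1 - pr n) ^ (l n)) := by
    have h0 := Q_o hm hi hlaw l 0
    have h1 : Summable (fun n => μ.real (E θ l 0 n) - w l n) := summable_of_isBigO_nat hg h0.isBigO
    have h2 : Summable (fun n => μ.real (E θ l 0 n)) := by
      have := h1.add hs
      simpa using this
    refine h2.congr fun n => ?_
    exact Q_eq hm hi hlaw l 0 n (Nat.zero_le _)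
  have htail := tendsto_sum_nat_add (fun n => (1 - pr n) ^ (l n))
  have h4 : (0 : ℝ) < 1 / (2 * Real.exp 4) := by positivity
  obtain ⟨M, hM1, hM2⟩ := ((htail.eventually (gt_mem_nhds h4)).and (eventually_ge_atTop (n1 + 1))).exists
  -- the first coordinates
  obtain ⟨B0, hB0⟩ : ∃ B0 : ℕ → Set ℝ, B0 = fun j => A (j + 1) := ⟨_, rfl⟩
  obtain ⟨D, hD⟩ : ∃ D : Set Ω, D = ⋂ j ∈ range M, θ j ⁻¹' B0 j := ⟨_, rfl⟩
  have hDr : μ.real D = ∏ j ∈ range M, pr (j + 1) := by
    rw [hD, prod_ev hm hi hlaw (range M) B0 (fun j => by rw [hB0]; exact meas_A _)]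
    apply prod_congr rfl
    intro j _
    rw [hB0]
    exact vol_A (j + 1)
  have hDpos : 0 < μ.real D := by
    rw [hDr]
    exact prod_pos fun j _ => pr_pos (j + 1) (by omega)
  obtain ⟨F, hF⟩ : ∃ F : ℕ → Set Ω, F = fun n => ⋂ j ∈ range (max M (l n)), θ j ⁻¹' (if j < M then B0 j else (A n)ᶜ) := ⟨_, rfl⟩
  have hFr : ∀ n, M ≤ n → μ.real (F n) = μ.real D * (1 - pr n) ^ (l n - M) := by
    intro n hn
    have hMl : M ≤ l n := hn.trans (hl n (by omega))
    rw [hF]
    simp only
    rw [prod_ev hm hi hlaw _ (fun j => if j < M then B0 j else (A n)ᶜ) (fun j => by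
      split_ifs
      · rw [hB0]; exact meas_A _
      · exact (meas_A n).compl), max_eq_right hMl]
    have e : range (l n) = range M ∪ Ico M (l n) := by
      ext j
      simp only [mem_range, mem_union, mem_Ico]
      omega
    rw [e, prod_union (by
      rw [disjoint_left]
      intro j h5 h6
      rw [mem_range] at h5
      rw [mem_Ico] at h6
      omega), hDr]
    congr 1
    · apply prod_congr rfl
      intro j hj
      rw [mem_range] at hj
      rw [if_pos hj, hB0]
      exact vol_A (j + 1)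
    · rw [prod_congr rfl (g := fun _ => (1 - pr n : ℝ)), prod_const, Nat.card_Ico]
      intro j hj
      rw [mem_Ico] at hj
      rw [if_neg (by omega), probReal_compl_eq_one_sub (meas_A n), vol_A]
      rfl
  have hFle : ∀ n, M ≤ n → μ.real (F n) ≤ μ.real D * (Real.exp 4 * (1 - pr n) ^ (l n)) := by
    intro n hn
    rw [hFr n hn]
    apply mul_le_mul_of_nonneg_left _ hDpos.le
    obtain ⟨a1, a2, a3⟩ := hb n (by omega)
    have hMl : M ≤ l n := hn.trans (hl n (by omega))
    have hn0 : (0 : ℝ) < n := by exact_mod_cast (by omega : 0 < n)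
    have hu : 0 < 1 - pr n := by linarith
    have e1 : (1 - pr n) ^ (l n) = (1 - pr n) ^ (l n - M) * (1 - pr n) ^ M := by rw [← pow_add, Nat.sub_add_cancel hMl]
    have e2 : Real.exp (-4) ≤ (1 - pr n) ^ M := by
      have f1 : Real.exp (-(2 * pr n)) ≤ 1 - pr n := exp_neg_two (pr n) (pr_nonneg n) a3
      calc Real.exp (-4) ≤ Real.exp (-(2 * pr n)) ^ M := by
            rw [← Real.exp_nat_mul]
            apply Real.exp_le_exp.2
            have h5 : (M : ℝ) ≤ n := by exact_mod_cast hn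
            have h6 : pr n * M ≤ 2 / n * n := mul_le_mul a2 h5 (Nat.cast_nonneg _) (by positivity)
            have h7 : 2 / (n : ℝ) * n = 2 := by field_simp
            linarith
        _ ≤ _ := pow_le_pow_left₀ (Real.exp_pos _).le f1 M
    rw [e1]
    have e3 : 0 ≤ (1 - pr n) ^ (l n - M) := by positivity
    have e4 : 1 ≤ Real.exp 4 * (1 - pr n) ^ M := by
      have h5 := mul_le_mul_of_nonneg_left e2 (Real.exp_pos 4).le
      rw [← Real.exp_add] at h5
      norm_num at h5
      exact h5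
    nlinarith
  have hcover : D ⊆ {ω | ∀ n, 1 ≤ n → ω ∉ ev θ n (l n)} ∪ ⋃ n, F (n + M) := by
    intro ω hω
    by_cases hall : ∀ n, 1 ≤ n → ω ∉ ev θ n (l n)
    · exact Or.inl hall
    · right
      push Not at hall
      obtain ⟨n, hn, hbad⟩ := hall
      rw [hD] at hω
      simp only [Set.mem_iInter, Set.mem_preimage, mem_range] at hω
      simp only [ev, Set.mem_iInter, Set.mem_preimage, mem_range] at hbad
      have hnM : M ≤ n := by
        by_contra hc
        rw [not_le] at hc
        have h5 := hω (n - 1) (by omega)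
        have h6 := hbad (n - 1) (by have := hl n hn; omega)
        rw [hB0] at h5
        simp only at h5
        rw [Nat.sub_add_cancel hn] at h5
        exact h6 h5
      rw [Set.mem_iUnion]
      refine ⟨n - M, ?_⟩
      rw [Nat.sub_add_cancel hnM, hF]
      simp only [Set.mem_iInter, Set.mem_preimage, mem_range]
      intro j hj
      split_ifs with hjM
      · exact hω j hjM
      · exact hbad j (by omega)
  by_contra hzero
  have hz : μ {ω | ∀ n, 1 ≤ n → ω ∉ ev θ n (l n)} = 0 := by simpa using hzero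
  have h5 : μ D ≤ ∑' n, μ (F (n + M)) := by
    calc μ D ≤ μ ({ω | ∀ n, 1 ≤ n → ω ∉ ev θ n (l n)} ∪ ⋃ n, F (n + M)) := measure_mono hcover
      _ ≤ μ {ω | ∀ n, 1 ≤ n → ω ∉ ev θ n (l n)} + μ (⋃ n, F (n + M)) := measure_union_le _ _
      _ ≤ 0 + ∑' n, μ (F (n + M)) := by
        rw [hz]
        exact add_le_add le_rfl (measure_iUnion_le _)
      _ = _ := zero_add _
  have h6 : ∑' n, μ (F (n + M)) ≤ ENNReal.ofReal (μ.real D / 2) := by
    have s1 : Summable fun n => μ.real D * (Real.exp 4 * (1 - pr (n + M)) ^ (l (n + M))) :=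
      ((((summable_nat_add_iff M).2 hQ).mul_left _).mul_left _)
    have hnn : ∀ n, 0 ≤ μ.real D * (Real.exp 4 * (1 - pr (n + M)) ^ (l (n + M))) := fun n =>
      le_trans measureReal_nonneg (hFle (n + M) (by omega))
    calc ∑' n, μ (F (n + M)) ≤ ∑' n, ENNReal.ofReal (μ.real D * (Real.exp 4 * (1 - pr (n + M)) ^ (l (n + M)))) := by
          apply ENNReal.tsum_le_tsum
          intro n
          rw [← ENNReal.ofReal_toReal (measure_ne_top μ (F (n + M)))]
          exact ENNReal.ofReal_le_ofReal (hFle (n + M) (by omega))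
      _ = ENNReal.ofReal (∑' n, μ.real D * (Real.exp 4 * (1 - pr (n + M)) ^ (l (n + M)))) :=
          (ENNReal.ofReal_tsum_of_nonneg hnn s1).symm
      _ ≤ _ := by
          apply ENNReal.ofReal_le_ofReal
          rw [tsum_mul_left, tsum_mul_left]
          have h7 : Real.exp 4 * ∑' n, (1 - pr (n + M)) ^ (l (n + M)) ≤ 1 / 2 := by
            have h8 := mul_le_mul_of_nonneg_left hM1.le (Real.exp_pos 4).le
            have e : Real.exp 4 * (1 / (2 * Real.exp 4)) = 1 / 2 := by
              have := Real.exp_pos 4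
              field_simp
            linarith
          have h9 := mul_le_mul_of_nonneg_left h7 hDpos.le
          linarith
  have h7 := h5.trans h6
  rw [← ENNReal.ofReal_toReal (measure_ne_top μ D)] at h7
  have h8 := (ENNReal.ofReal_le_ofReal_iff (by positivity)).1 h7
  have h9 : μ.real D = (μ D).toReal := rfl
  rw [← h9] at h8
  linarith

end Pool.Agent.Run7.h189.PT
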