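import Pool.Agent.Run7.h931.RS.Nt

/-!
# Random dilates, part 2: primes with `n + 1` binary digits, and pairs of prefixes
-/

set_option autoImplicit false

namespace Pool.Agent.Run7.h189.PT

open Finset Filter
open Pool.Agent.Run7.h931.RS (Dc Fw pnt_lo pnt_hi sg_le_Fw moments one_le_Fw)
open Pool.Agent.Y851.DK (sg)

/-- the number of the primes with `n + 1` binary digits -/
def one (n : ℕ) : ℕ := ((Ico (2 ^ n) (2 ^ (n + 1))).filter Nat.Prime).card

/-- the number of the primes `v` with `n + d + 1` binary digits whose first `n + 1` digits form a prime -/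
def two (n d : ℕ) : ℕ := ((Ico (2 ^ (n + d)) (2 ^ (n + d + 1))).filter fun v => v.Prime ∧ (v / 2 ^ d).Prime).card

lemma one_eq (n : ℕ) : one n = Dc (2 ^ n - 1) (2 ^ n) := by
  unfold one Dc
  have h : 1 ≤ 2 ^ n := Nat.one_le_two_pow
  congr 1
  ext v
  simp only [mem_filter, mem_Ico, mem_Ioc, pow_succ]
  constructor
  · rintro ⟨⟨a, b⟩, c⟩
    exact ⟨⟨by omega, by omega⟩, c⟩
  · rintro ⟨⟨a, b⟩, c⟩
    exact ⟨⟨by omega, by omega⟩, c⟩

lemma one_le (n : ℕ) : (one n : ℝ) ≤ 2 ^ n := by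
  have : one n ≤ 2 ^ n := by
    unfold one
    refine (card_filter_le _ _).trans ?_
    rw [Nat.card_Ico, pow_succ]
    omega
  exact_mod_cast this

theorem one_bd : ∃ K : ℝ, 0 ≤ K ∧ ∀ n : ℕ, 1 ≤ n → |(one n : ℝ) / 2 ^ n - 1 / (n * Real.log 2)| ≤ K / n ^ 2 := by
  obtain ⟨K1, hK1, h1⟩ := pnt_lo 0 0
  obtain ⟨K2, hK2, h2⟩ := pnt_hi 0 0 (1 / 2) (by norm_num) (by norm_num)
  have ht : Tendsto (fun n : ℕ => 2 ^ n) atTop atTop := tendsto_pow_atTop_atTop_of_one_lt (by norm_num)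
  obtain ⟨n0, hn0⟩ := eventually_atTop.1 (ht.eventually (h1.and h2))
  have hl : 0 < Real.log 2 := Real.log_pos (by norm_num)
  have hl2 : 1 / 2 ≤ Real.log 2 := by linarith [Real.log_two_gt_d9]
  refine ⟨4 * (K1 + K2) + 3 * n0 ^ 2, by positivity, ?_⟩
  intro n hn
  have hn1 : (1 : ℝ) ≤ n := by exact_mod_cast hn
  have hp : (0 : ℝ) < 2 ^ n := by positivity
  rcases Nat.lt_or_ge n n0 with hlt | hge
  · have a1 : (one n : ℝ) / 2 ^ n ≤ 1 := by
      rw [div_le_one hp]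
      exact one_le n
    have a2 : 0 ≤ (one n : ℝ) / 2 ^ n := by positivity
    have a3 : 1 / (n * Real.log 2) ≤ 2 := by
      rw [div_le_iff₀ (by positivity)]
      nlinarith
    have a4 : 0 ≤ 1 / (n * Real.log 2) := by positivity
    have a5 : 3 ≤ (4 * (K1 + K2) + 3 * (n0 : ℝ) ^ 2) / n ^ 2 := by
      rw [le_div_iff₀ (by positivity)]
      have : (n : ℝ) ≤ n0 := by exact_mod_cast hlt.le
      have : (n : ℝ) ^ 2 ≤ (n0 : ℝ) ^ 2 := pow_le_pow_left₀ (by linarith) this 2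
      linarith
    rw [abs_le]
    constructor <;> linarith
  · obtain ⟨g1, g2⟩ := hn0 n hge
    have hcast : ((2 ^ n : ℕ) : ℝ) = 2 ^ n := by push_cast; rfl
    have b1 := g1 (2 ^ n - 1) (2 ^ n) (by omega) (by simp) le_rfl
    have b2 := g2 (2 ^ n - 1) (2 ^ n) (by omega) (by
      have : 2 ^ n ≤ 2 * (2 ^ n - 1) := by
        have : 2 ≤ 2 ^ n := by
          calc 2 = 2 ^ 1 := by norm_num
            _ ≤ 2 ^ n := Nat.pow_le_pow_right (by norm_num) hn
        omega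
      have : ((2 ^ n : ℕ) : ℝ) ≤ 2 * ((2 ^ n - 1 : ℕ) : ℝ) := by exact_mod_cast this
      linarith) (by simp) le_rfl
    rw [← one_eq, hcast, Real.log_pow] at b1 b2
    have e1 : (one n : ℝ) / 2 ^ n * 2 ^ n = one n := by field_simp
    have k1 : 1 / (n * Real.log 2) - K1 * (1 / (n * Real.log 2) ^ 2) ≤ (one n : ℝ) / 2 ^ n := by
      rw [le_div_iff₀ hp]
      refine le_trans (le_of_eq ?_) b1
      ring
    have k2 : (one n : ℝ) / 2 ^ n ≤ 1 / (n * Real.log 2) + K2 * (1 / (n * Real.log 2) ^ 2) := by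
      rw [div_le_iff₀ hp]
      refine b2.trans (le_of_eq ?_)
      ring
    have k3 : 1 / (n * Real.log 2) ^ 2 ≤ 4 / n ^ 2 := by
      rw [div_le_div_iff₀ (by positivity) (by positivity)]
      have : (1 / 2) ^ 2 ≤ Real.log 2 ^ 2 := pow_le_pow_left₀ (by norm_num) hl2 2
      have h0 : (0 : ℝ) ≤ (n : ℝ) ^ 2 := by positivity
      nlinarith
    have k4 : K1 * (1 / (n * Real.log 2) ^ 2) ≤ K1 * (4 / n ^ 2) := mul_le_mul_of_nonneg_left k3 hK1
    have k5 : K2 * (1 / (n * Real.log 2) ^ 2) ≤ K2 * (4 / n ^ 2) := mul_le_mul_of_nonneg_left k3 hK2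
    have k6 : (4 * (K1 + K2) + 3 * (n0 : ℝ) ^ 2) / n ^ 2 = K1 * (4 / n ^ 2) + K2 * (4 / n ^ 2) + 3 * (n0 : ℝ) ^ 2 / n ^ 2 := by ring
    have k7 : 0 ≤ 3 * (n0 : ℝ) ^ 2 / n ^ 2 := by positivity
    have k8 : 0 ≤ K1 * (4 / (n : ℝ) ^ 2) := by positivity
    have k9 : 0 ≤ K2 * (4 / (n : ℝ) ^ 2) := by positivity
    rw [k6, abs_le]
    constructor <;> linarith

lemma one_le' : ∃ K : ℝ, 0 ≤ K ∧ ∀ n : ℕ, 1 ≤ n → (one n : ℝ) ≤ K * 2 ^ n / n := by
  obtain ⟨K, hK, h⟩ := one_bd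
  refine ⟨K + 2, by linarith, ?_⟩
  intro n hn
  have hn1 : (1 : ℝ) ≤ n := by exact_mod_cast hn
  have h1 := (abs_le.1 (h n hn)).2
  have hl2 : 1 / 2 ≤ Real.log 2 := by linarith [Real.log_two_gt_d9]
  have h2 : 1 / (n * Real.log 2) ≤ 2 / n := by
    rw [div_le_div_iff₀ (by positivity) (by positivity)]
    nlinarith
  have h3 : K / (n : ℝ) ^ 2 ≤ K / n := by
    apply div_le_div_of_nonneg_left hK (by positivity)
    nlinarith
  have h4 : (one n : ℝ) / 2 ^ n ≤ (K + 2) / n := by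
    have : (K + 2) / (n : ℝ) = K / n + 2 / n := by ring
    linarith
  rw [div_le_iff₀ (by positivity)] at h4
  refine h4.trans (le_of_eq ?_)
  ring

/-- the sieve for one form -/
lemma bt : ∃ (C : ℝ) (d0 : ℕ), 0 ≤ C ∧ ∀ d : ℕ, d0 ≤ d → 1 ≤ d → ∀ x : ℕ,
    (((range (2 ^ d)).filter fun r => (x + r).Prime).card : ℝ) ≤ C * 2 ^ d / d := by
  classical
  obtain ⟨C, hC1, hC⟩ := Pool.Agent.Y949.DK.t_SV 1
  have ht : Tendsto (fun n : ℕ => (2 : ℝ) ^ n) atTop atTop := tendsto_pow_atTop_atTop_of_one_lt (by norm_num)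
  obtain ⟨d0, hd0⟩ := eventually_atTop.1 (ht.eventually hC)
  refine ⟨2 * C, d0, by linarith, ?_⟩
  intro d hd hd1 x
  have hd1r : (1 : ℝ) ≤ d := by exact_mod_cast hd1
  have b1 := hd0 d hd {((1 : ℤ), (x : ℤ) - 1)} (card_singleton _) (by simp) (by simp)
  have hfl : ⌊(2 : ℝ) ^ d⌋₊ = 2 ^ d := by
    have : (2 : ℝ) ^ d = ((2 ^ d : ℕ) : ℝ) := by push_cast; rfl
    rw [this, Nat.floor_natCast]
  rw [hfl] at b1
  have b2 : ((range (2 ^ d)).filter fun r => (x + r).Prime).card ≤ ((Icc 1 (2 ^ d)).filter (fun n : ℕ =>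
      ∀ f ∈ ({((1 : ℤ), (x : ℤ) - 1)} : Finset (ℤ × ℤ)), (f.1 * (n : ℤ) + f.2).toNat.Prime)).card := by
    apply card_le_card_of_injOn (fun r => r + 1)
    · intro r hr
      rw [mem_coe, mem_filter, mem_range] at hr
      rw [mem_coe, mem_filter, mem_Icc]
      refine ⟨⟨Nat.succ_pos r, Nat.succ_le_of_lt hr.1⟩, ?_⟩
      intro f hf
      rw [mem_singleton] at hf
      subst hf
      have e : (1 * ((r + 1 : ℕ) : ℤ) + ((x : ℤ) - 1)).toNat = x + r := by omega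
      simp only
      rw [e]
      exact hr.2
    · intro r _ r' _ h
      simpa using h
  have hsg0 : sg 0 = 0 := by simp [sg]
  have hsg1 : sg 1 = 0 := by simp [sg]
  have b3 : ∑ f ∈ ({((1 : ℤ), (x : ℤ) - 1)} : Finset (ℤ × ℤ)), sg f.1.natAbs +
      ∑ f ∈ ({((1 : ℤ), (x : ℤ) - 1)} : Finset (ℤ × ℤ)), ∑ g ∈ ({((1 : ℤ), (x : ℤ) - 1)} : Finset (ℤ × ℤ)),
        sg (f.1 * g.2 - g.1 * f.2).natAbs = 0 := by
    rw [sum_singleton, sum_singleton, sum_singleton, sub_self]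
    simp only [Int.natAbs_one, Int.natAbs_zero, hsg0, hsg1]
    norm_num
  rw [b3, mul_zero, Real.exp_zero, mul_one, pow_one, Real.log_pow] at b1
  have hr : (((range (2 ^ d)).filter fun r => (x + r).Prime).card : ℝ) ≤ _ := Nat.cast_le.2 b2
  refine (hr.trans b1).trans ?_
  have hl2 : 1 / 2 ≤ Real.log 2 := by linarith [Real.log_two_gt_d9]
  have : (2 : ℝ) ^ d / (d * Real.log 2) ≤ 2 ^ d / (d * (1 / 2)) := by
    apply div_le_div_of_nonneg_left (by positivity) (by positivity)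
    exact mul_le_mul_of_nonneg_left hl2 (by linarith)
  calc C * (2 ^ d / (d * Real.log 2)) ≤ C * (2 ^ d / (d * (1 / 2))) := mul_le_mul_of_nonneg_left this (by linarith)
    _ = _ := by field_simp

lemma two_le_sum (n d : ℕ) (hd : 1 ≤ d) : (two n d : ℝ) ≤
    ∑ r ∈ Icc 1 (2 ^ d), (((Icc 1 (2 ^ (n + 1))).filter fun p => p.Prime ∧ (2 ^ d * p + r).Prime).card : ℝ) := by
  classical
  have h1 : two n d ≤ ∑ r ∈ Icc 1 (2 ^ d), ((Icc 1 (2 ^ (n + 1))).filter fun p => p.Prime ∧ (2 ^ d * p + r).Prime).card := by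
    rw [← card_sigma]
    unfold two
    apply card_le_card_of_injOn (fun v => (⟨v % 2 ^ d, v / 2 ^ d⟩ : Σ _ : ℕ, ℕ))
    · intro v hv
      rw [mem_coe, mem_filter, mem_Ico] at hv
      obtain ⟨⟨v1, v2⟩, v3, v4⟩ := hv
      have hp : 0 < 2 ^ d := by positivity
      have e1 := Nat.div_add_mod v (2 ^ d)
      have e2 := Nat.mod_lt v hp
      rw [mem_coe, mem_sigma, mem_Icc, mem_filter, mem_Icc]
      simp only
      refine ⟨⟨?_, e2.le⟩, ⟨v4.one_lt.le, ?_⟩, v4, ?_⟩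
      · by_contra h0
        have h0' : v % 2 ^ d = 0 := by omega
        have h2 : 2 ^ d ∣ v := Nat.dvd_of_mod_eq_zero h0'
        have h3 : 2 ∣ v := (dvd_pow_self 2 (by omega)).trans h2
        have h4 : 2 = v := (Nat.prime_dvd_prime_iff_eq Nat.prime_two v3).1 h3
        have h5 : 2 ≤ v / 2 ^ d := v4.two_le
        have h6 : v / 2 ^ d ≤ v / 2 := by
          apply Nat.div_le_div_left _ (by norm_num)
          calc 2 = 2 ^ 1 := by norm_num
            _ ≤ 2 ^ d := Nat.pow_le_pow_right (by norm_num) hd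
        omega
      · have : v < 2 ^ (n + 1) * 2 ^ d := by
          rw [← pow_add]
          have : n + 1 + d = n + d + 1 := by ring
          rw [this]
          exact v2
        exact (Nat.div_lt_of_lt_mul (by rwa [mul_comm] at this)).le
      · rw [e1]
        exact v3
    · intro v _ v' _ h
      simp only [Sigma.mk.injEq, heq_eq_eq] at h
      rw [← Nat.div_add_mod v (2 ^ d), ← Nat.div_add_mod v' (2 ^ d), h.1, h.2]
  exact_mod_cast h1

lemma two_le_sum' (n d : ℕ) : (two n d : ℝ) ≤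
    ∑ p ∈ (Ico (2 ^ n) (2 ^ (n + 1))).filter Nat.Prime, (((range (2 ^ d)).filter fun r => (2 ^ d * p + r).Prime).card : ℝ) := by
  classical
  have h1 : two n d ≤ ∑ p ∈ (Ico (2 ^ n) (2 ^ (n + 1))).filter Nat.Prime,
      ((range (2 ^ d)).filter fun r => (2 ^ d * p + r).Prime).card := by
    rw [← card_sigma]
    unfold two
    apply card_le_card_of_injOn (fun v => (⟨v / 2 ^ d, v % 2 ^ d⟩ : Σ _ : ℕ, ℕ))
    · intro v hv
      rw [mem_coe, mem_filter, mem_Ico] at hv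
      obtain ⟨⟨v1, v2⟩, v3, v4⟩ := hv
      have hp : 0 < 2 ^ d := by positivity
      have e1 := Nat.div_add_mod v (2 ^ d)
      have e2 := Nat.mod_lt v hp
      rw [mem_coe, mem_sigma, mem_filter, mem_Ico, mem_filter, mem_range]
      simp only
      refine ⟨⟨⟨?_, ?_⟩, v4⟩, e2, ?_⟩
      · rw [Nat.le_div_iff_mul_le hp, ← pow_add]
        exact v1
      · apply Nat.div_lt_of_lt_mul
        rw [← pow_add]
        have : d + (n + 1) = n + d + 1 := by ring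
        rw [this]
        exact v2
      · rw [e1]
        exact v3
    · intro v _ v' _ h
      simp only [Sigma.mk.injEq, heq_eq_eq] at h
      rw [← Nat.div_add_mod v (2 ^ d), ← Nat.div_add_mod v' (2 ^ d), h.1, h.2]
  exact_mod_cast h1

/-- the sieve for two forms -/
lemma sv2 : ∃ (C : ℝ) (n0 : ℕ), 0 ≤ C ∧ ∀ n : ℕ, n0 ≤ n → 1 ≤ n → ∀ d : ℕ, 1 ≤ d →
    (two n d : ℝ) ≤ C * 2 ^ (n + d) / n ^ 2 := by
  classical
  obtain ⟨C, hC1, hC⟩ := Pool.Agent.Y949.DK.t_SV 2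
  have ht : Tendsto (fun n : ℕ => (2 : ℝ) ^ (n + 1)) atTop atTop :=
    (tendsto_pow_atTop_atTop_of_one_lt (by norm_num)).comp (tendsto_add_atTop_nat 1)
  obtain ⟨n0, hn0⟩ := eventually_atTop.1 (ht.eventually hC)
  obtain ⟨C₀, hC₀⟩ : ∃ C₀ : ℕ, 2 * C ≤ C₀ := exists_nat_ge _
  obtain ⟨K, hK1, hK⟩ := moments 1 (by norm_num) C₀
  refine ⟨C * Real.exp (C * (1 / 2)) * 8 * K, n0, by positivity, ?_⟩
  intro n hn hn1 d hd
  have hn1r : (1 : ℝ) ≤ n := by exact_mod_cast hn1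
  have hfl : ⌊(2 : ℝ) ^ (n + 1)⌋₊ = 2 ^ (n + 1) := by
    have : (2 : ℝ) ^ (n + 1) = ((2 ^ (n + 1) : ℕ) : ℝ) := by push_cast; rfl
    rw [this, Nat.floor_natCast]
  have hsg0 : sg 0 = 0 := by simp [sg]
  have hsg1 : sg 1 = 0 := by simp [sg]
  have hsg2 : sg (2 ^ d) = 1 / 2 := by
    unfold sg
    rw [Nat.primeFactors_pow _ (by omega), Nat.Prime.primeFactors Nat.prime_two, sum_singleton]
    norm_num
  have hl2 : 1 / 2 ≤ Real.log 2 := by linarith [Real.log_two_gt_d9]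
  have hY : (2 : ℝ) ^ (n + 1) / Real.log ((2 : ℝ) ^ (n + 1)) ^ 2 ≤ 8 * 2 ^ n / n ^ 2 := by
    rw [Real.log_pow]
    push_cast
    have h1 : (n : ℝ) / 2 ≤ ((n : ℝ) + 1) * Real.log 2 := by nlinarith
    have h2 : ((n : ℝ) / 2) ^ 2 ≤ (((n : ℝ) + 1) * Real.log 2) ^ 2 := pow_le_pow_left₀ (by positivity) h1 2
    calc (2 : ℝ) ^ (n + 1) / (((n : ℝ) + 1) * Real.log 2) ^ 2 ≤ 2 ^ (n + 1) / ((n : ℝ) / 2) ^ 2 :=
          div_le_div_of_nonneg_left (by positivity) (by positivity) h2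
      _ = _ := by
        rw [pow_succ]
        field_simp
        norm_num
  have key : ∀ r ∈ Icc 1 (2 ^ d), (((Icc 1 (2 ^ (n + 1))).filter fun p => p.Prime ∧ (2 ^ d * p + r).Prime).card : ℝ) ≤
      C * Real.exp (C * (1 / 2)) * (8 * 2 ^ n / n ^ 2) * Real.exp (1 * Fw 0 r ^ C₀) := by
    intro r hr
    rw [mem_Icc] at hr
    have hne : ((1 : ℤ), (0 : ℤ)) ≠ ((2 : ℤ) ^ d, (r : ℤ)) := by
      intro he
      have := congrArg Prod.snd he
      simp only at this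
      omega
    obtain ⟨F, hF⟩ : ∃ F : Finset (ℤ × ℤ), F = {((1 : ℤ), (0 : ℤ)), ((2 : ℤ) ^ d, (r : ℤ))} := ⟨_, rfl⟩
    have hcard : F.card = 2 := by rw [hF]; exact card_pair hne
    have hr0 : (r : ℤ) ≠ 0 := by omega
    have b1 := hn0 n hn F hcard (by
      intro f hf
      rw [hF, mem_insert, mem_singleton] at hf
      rcases hf with rfl | rfl
      · norm_num
      · simp) (by
      intro f hf g hg hfg
      rw [hF, mem_insert, mem_singleton] at hf hg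
      rcases hf with rfl | rfl <;> rcases hg with rfl | rfl
      · exact absurd rfl hfg
      · simpa using hr0
      · simpa using hr0
      · exact absurd rfl hfg)
    rw [hfl] at b1
    have b2 : ((Icc 1 (2 ^ (n + 1))).filter fun p => p.Prime ∧ (2 ^ d * p + r).Prime).card ≤
        ((Icc 1 (2 ^ (n + 1))).filter (fun n : ℕ => ∀ f ∈ F, (f.1 * (n : ℤ) + f.2).toNat.Prime)).card := by
      apply card_le_card
      intro p hp
      rw [mem_filter] at hp ⊢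
      refine ⟨hp.1, ?_⟩
      intro f hf
      rw [hF, mem_insert, mem_singleton] at hf
      rcases hf with rfl | rfl
      · have e : (1 * (p : ℤ) + 0).toNat = p := by omega
        simp only
        rw [e]
        exact hp.2.1
      · have e : ((2 : ℤ) ^ d * (p : ℤ) + (r : ℤ)).toNat = 2 ^ d * p + r := by
          have : (2 : ℤ) ^ d * (p : ℤ) + (r : ℤ) = ((2 ^ d * p + r : ℕ) : ℤ) := by push_cast; rfl
          rw [this, Int.toNat_natCast]
        simp only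
        rw [e]
        exact hp.2.2
    have b3 : ∑ f ∈ F, sg f.1.natAbs + ∑ f ∈ F, ∑ g ∈ F, sg (f.1 * g.2 - g.1 * f.2).natAbs = 1 / 2 + 2 * sg r := by
      rw [hF, sum_pair hne, sum_pair hne, sum_pair hne, sum_pair hne]
      have e0 : ((2 : ℤ) ^ d).natAbs = 2 ^ d := by rw [Int.natAbs_pow]; rfl
      have e1 : ((1 : ℤ) * 0 - 1 * 0).natAbs = 0 := by norm_num
      have e2 : ((1 : ℤ) * (r : ℤ) - 2 ^ d * 0).natAbs = r := by simp
      have e3 : ((2 : ℤ) ^ d * 0 - 1 * (r : ℤ)).natAbs = r := by simp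
      have e4 : ((2 : ℤ) ^ d * (r : ℤ) - 2 ^ d * (r : ℤ)).natAbs = 0 := by simp
      simp only [e0, e1, e2, e3, e4, hsg0, Int.natAbs_one, hsg1, hsg2]
      ring
    rw [b3] at b1
    have hF1 := one_le_Fw 0 r
    have b4 : Real.exp (C * (1 / 2 + 2 * sg r)) ≤ Real.exp (C * (1 / 2)) * Real.exp (1 * Fw 0 r ^ C₀) := by
      have c1 : C * (2 * sg r) ≤ C₀ * sg r := by
        have : 0 ≤ sg r := sum_nonneg fun _ _ => by positivity
        nlinarith
      have c2 : Real.exp (C * (2 * sg r)) ≤ Fw 0 r ^ C₀ := by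
        calc Real.exp (C * (2 * sg r)) ≤ Real.exp (C₀ * sg r) := Real.exp_le_exp.2 c1
          _ = Real.exp (sg r) ^ C₀ := Real.exp_nat_mul _ _
          _ ≤ _ := pow_le_pow_left₀ (Real.exp_pos _).le (sg_le_Fw r) _
      have c3 : Fw 0 r ^ C₀ ≤ Real.exp (1 * Fw 0 r ^ C₀) := by
        rw [one_mul]
        linarith [Real.add_one_le_exp (Fw 0 r ^ C₀)]
      rw [mul_add, Real.exp_add]
      exact mul_le_mul_of_nonneg_left (c2.trans c3) (Real.exp_pos _).le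
    have hcc : (((Icc 1 (2 ^ (n + 1))).filter fun p => p.Prime ∧ (2 ^ d * p + r).Prime).card : ℝ) ≤ _ := Nat.cast_le.2 b2
    refine (hcc.trans b1).trans ?_
    calc C * Real.exp (C * (1 / 2 + 2 * sg r)) * ((2 : ℝ) ^ (n + 1) / Real.log ((2 : ℝ) ^ (n + 1)) ^ 2) ≤
        C * (Real.exp (C * (1 / 2)) * Real.exp (1 * Fw 0 r ^ C₀)) * (8 * 2 ^ n / n ^ 2) := by
          apply mul_le_mul _ hY (by positivity) (by positivity)
          exact mul_le_mul_of_nonneg_left b4 (by linarith)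
      _ = _ := by ring
  refine (two_le_sum n d hd).trans ((sum_le_sum key).trans ?_)
  rw [← mul_sum]
  have h1 := hK (2 ^ d)
  push_cast at h1
  calc C * Real.exp (C * (1 / 2)) * (8 * 2 ^ n / n ^ 2) * ∑ r ∈ Icc 1 (2 ^ d), Real.exp (1 * Fw 0 r ^ C₀) ≤
      C * Real.exp (C * (1 / 2)) * (8 * 2 ^ n / n ^ 2) * (K * 2 ^ d) := mul_le_mul_of_nonneg_left h1 (by positivity)
    _ = _ := by
      rw [pow_add]
      ring

theorem two_bd : ∃ C : ℝ, 0 ≤ C ∧ ∀ n d : ℕ, 1 ≤ n → 1 ≤ d → (two n d : ℝ) ≤ C * 2 ^ (n + d) / (n * (n + d)) := by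
  classical
  obtain ⟨C1, n0, hC1, h1⟩ := sv2
  obtain ⟨C2, d0, hC2, h2⟩ := bt
  obtain ⟨C3, hC3, h3⟩ := one_le'
  refine ⟨2 * C1 + 2 * (C3 * C2) + 2 * (n0 + d0 : ℝ) ^ 2, by positivity, ?_⟩
  intro n d hn hd
  have hn1 : (1 : ℝ) ≤ n := by exact_mod_cast hn
  have hd1 : (1 : ℝ) ≤ d := by exact_mod_cast hd
  have hP : (0 : ℝ) < 2 ^ (n + d) := by positivity
  have hmain : ∀ A : ℝ, A ≤ 2 * C1 + 2 * (C3 * C2) + 2 * (n0 + d0 : ℝ) ^ 2 → (two n d : ℝ) ≤ A * 2 ^ (n + d) / (n * (n + d)) →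
      (two n d : ℝ) ≤ (2 * C1 + 2 * (C3 * C2) + 2 * (n0 + d0 : ℝ) ^ 2) * 2 ^ (n + d) / (n * (n + d)) := by
    intro A hA hh
    refine hh.trans ?_
    gcongr
  have p1 : 0 ≤ C3 * C2 := by positivity
  have p2 : 0 ≤ 2 * (n0 + d0 : ℝ) ^ 2 := by positivity
  by_cases hc1 : n0 ≤ n ∧ d ≤ n
  · apply hmain (2 * C1) (by linarith)
    refine (h1 n hc1.1 hn d hd).trans ?_
    rw [div_le_div_iff₀ (by positivity) (by positivity)]
    have hdn : (d : ℝ) ≤ n := by exact_mod_cast hc1.2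
    have : (n : ℝ) * (n + d) ≤ 2 * n ^ 2 := by nlinarith
    calc C1 * 2 ^ (n + d) * (n * (n + d)) ≤ C1 * 2 ^ (n + d) * (2 * n ^ 2) := mul_le_mul_of_nonneg_left this (by positivity)
      _ = _ := by ring
  by_cases hc2 : n < d ∧ d0 ≤ d
  · apply hmain (2 * (C3 * C2)) (by linarith)
    refine (two_le_sum' n d).trans ?_
    have e1 : ∑ p ∈ (Ico (2 ^ n) (2 ^ (n + 1))).filter Nat.Prime, (((range (2 ^ d)).filter fun r => (2 ^ d * p + r).Prime).card : ℝ) ≤
        ∑ _p ∈ (Ico (2 ^ n) (2 ^ (n + 1))).filter Nat.Prime, C2 * 2 ^ d / d :=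
      sum_le_sum fun p _ => h2 d hc2.2 hd (2 ^ d * p)
    refine e1.trans ?_
    rw [sum_const, nsmul_eq_mul]
    have e2 : (((Ico (2 ^ n) (2 ^ (n + 1))).filter Nat.Prime).card : ℝ) = one n := rfl
    rw [e2]
    have e3 := h3 n hn
    calc (one n : ℝ) * (C2 * 2 ^ d / d) ≤ (C3 * 2 ^ n / n) * (C2 * 2 ^ d / d) := mul_le_mul_of_nonneg_right e3 (by positivity)
      _ = (C3 * C2) * 2 ^ (n + d) / (n * d) := by
        rw [pow_add]
        field_simp
      _ ≤ _ := by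
        rw [div_le_div_iff₀ (by positivity) (by positivity)]
        have hdn : (n : ℝ) ≤ d := by exact_mod_cast hc2.1.le
        have : (n : ℝ) * (n + d) ≤ 2 * (n * d) := by nlinarith
        calc C3 * C2 * 2 ^ (n + d) * (n * (n + d)) ≤ C3 * C2 * 2 ^ (n + d) * (2 * (n * d)) :=
              mul_le_mul_of_nonneg_left this (by positivity)
          _ = _ := by ring
  · apply hmain (2 * (n0 + d0 : ℝ) ^ 2) (by linarith)
    have hnd : n ≤ n0 + d0 ∧ d ≤ n0 + d0 := by omega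
    have hnr : (n : ℝ) ≤ n0 + d0 := by exact_mod_cast hnd.1
    have hdr : (d : ℝ) ≤ n0 + d0 := by exact_mod_cast hnd.2
    have ht : (two n d : ℝ) ≤ 2 ^ (n + d) := by
      have : two n d ≤ 2 ^ (n + d) := by
        unfold two
        refine (card_filter_le _ _).trans ?_
        rw [Nat.card_Ico, pow_succ]
        omega
      exact_mod_cast this
    refine ht.trans ?_
    rw [le_div_iff₀ (by positivity)]
    have : (n : ℝ) * (n + d) ≤ 2 * (n0 + d0 : ℝ) ^ 2 := by nlinarith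
    calc (2 : ℝ) ^ (n + d) * (n * (n + d)) ≤ 2 ^ (n + d) * (2 * (n0 + d0 : ℝ) ^ 2) := mul_le_mul_of_nonneg_left this hP.le
      _ = _ := by ring

end Pool.Agent.Run7.h189.PT
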