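import Pool.Agent.Run7.h189.PT.Cov

/-!
# Random dilates, part 5: the sizes of the probabilities
-/

set_option autoImplicit false

namespace Pool.Agent.Run7.h189.PT

open MeasureTheory ProbabilityTheory Filter Finset
open scoped Topology ENNReal

/-- the model probability -/
noncomputable def w (l : ℕ → ℕ) (n : ℕ) : ℝ := Real.exp (-(l n / (n * Real.log 2)))

lemma w_pos (l : ℕ → ℕ) (n : ℕ) : 0 < w l n := Real.exp_pos _

lemma log_one_sub_bd (a : ℝ) (h0 : 0 ≤ a) (h1 : a ≤ 1 / 2) : |Real.log (1 - a) + a| ≤ 2 * a ^ 2 := by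
  have h2 : Real.log (1 - a) ≤ -a := by
    have := Real.log_le_sub_one_of_pos (show 0 < 1 - a by linarith)
    linarith
  have h3 : 1 - (1 - a)⁻¹ ≤ Real.log (1 - a) := Real.one_sub_inv_le_log_of_pos (by linarith)
  have h4 : (1 - a)⁻¹ ≤ 1 + a + 2 * a ^ 2 := by
    rw [inv_le_comm₀ (by linarith) (by positivity), inv_eq_one_div, div_le_iff₀ (by positivity)]
    nlinarith [mul_nonneg h0 (by linarith : 0 ≤ 1 - 2 * a), mul_nonneg (mul_nonneg h0 h0) (by linarith : 0 ≤ 1 - 2 * a)]
  rw [abs_le]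
  constructor <;> nlinarith [sq_nonneg a]

lemma P_w : ∃ (K : ℝ) (n1 : ℕ), 0 ≤ K ∧ 2 ≤ n1 ∧ ∀ (l : ℕ → ℕ) (n : ℕ), n1 ≤ n →
    |(1 - pr n) ^ (l n) - w l n| ≤ (K * (Real.log n / n) + 1 / n) * (w l n + 1 / (n : ℝ) ^ 2) := by
  obtain ⟨K, n1, hK, hn1, hb, hs⟩ := pr_size
  have ht : Tendsto (fun n : ℕ => Real.log (n : ℝ) / n) atTop (𝓝 0) := by
    have h := Real.isLittleO_log_id_atTop.tendsto_div_nhds_zero.comp tendsto_natCast_atTop_atTop
    exact h
  have hev := ht.eventually (gt_mem_nhds (show (0 : ℝ) < 1 / (3 * (K + 8)) by positivity))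
  obtain ⟨n2, hn2⟩ := eventually_atTop.1 hev
  refine ⟨6 * (K + 8), n1 + n2, by positivity, by omega, ?_⟩
  intro l n hn
  have hn' : 2 ≤ n := by omega
  have hnr : (2 : ℝ) ≤ n := by exact_mod_cast hn'
  have hn0 : (0 : ℝ) < n := by linarith
  have hlog : 0 ≤ Real.log (n : ℝ) := Real.log_nonneg (by linarith)
  obtain ⟨a1, a2, a3⟩ := hs n (by omega)
  have hsm := hn2 n (by omega)
  have hw := w_pos l n
  have hl2 : 0 < Real.log 2 := Real.log_pos (by norm_num)
  have hlt := Real.log_two_lt_d9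
  have hn2p : 0 < 1 / (n : ℝ) ^ 2 := by positivity
  rcases le_or_gt ((l n : ℝ)) (3 * n * Real.log n) with hc | hc
  · obtain ⟨δ, hδ⟩ : ∃ δ : ℝ, δ = l n * Real.log (1 - pr n) + l n / (n * Real.log 2) := ⟨_, rfl⟩
    have e1 : (1 - pr n) ^ (l n) = w l n * Real.exp δ := by
      have hp : 0 < 1 - pr n := by linarith
      rw [w, hδ, ← Real.exp_add, ← Real.exp_log (pow_pos hp (l n)), Real.log_pow]
      congr 1
      ring
    have e2 : |δ| ≤ 3 * (K + 8) * (Real.log n / n) := by
      have f1 := log_one_sub_bd (pr n) (pr_nonneg n) a3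
      have f2 := hb n (by omega)
      have f3 : δ = l n * ((Real.log (1 - pr n) + pr n) - (pr n - 1 / (n * Real.log 2))) := by
        rw [hδ]
        ring
      have f4 : pr n ^ 2 ≤ (2 / n) ^ 2 := pow_le_pow_left₀ (pr_nonneg n) a2 2
      have f5 : (2 / (n : ℝ)) ^ 2 = 4 / n ^ 2 := by rw [div_pow]; norm_num
      rw [f5] at f4
      have f6 : |(Real.log (1 - pr n) + pr n) - (pr n - 1 / (n * Real.log 2))| ≤ (K + 8) / n ^ 2 := by
        refine (abs_sub _ _).trans ?_
        have : (K + 8) / (n : ℝ) ^ 2 = 2 * (4 / n ^ 2) + K / n ^ 2 := by ring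
        rw [this]
        linarith
      rw [f3, abs_mul, Nat.abs_cast]
      calc (l n : ℝ) * |(Real.log (1 - pr n) + pr n) - (pr n - 1 / (n * Real.log 2))| ≤ (3 * n * Real.log n) * ((K + 8) / n ^ 2) := by
            gcongr
        _ = _ := by field_simp
    have e3 : 3 * (K + 8) * (Real.log n / n) ≤ 1 := by
      have := mul_le_mul_of_nonneg_left hsm.le (show 0 ≤ 3 * (K + 8) by positivity)
      have e : 3 * (K + 8) * (1 / (3 * (K + 8))) = 1 := by field_simp
      linarith
    have e4 := Real.abs_exp_sub_one_le (e2.trans e3)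
    rw [e1]
    have e5 : w l n * Real.exp δ - w l n = w l n * (Real.exp δ - 1) := by ring
    rw [e5, abs_mul, abs_of_pos hw]
    calc w l n * |Real.exp δ - 1| ≤ w l n * (2 * (3 * (K + 8) * (Real.log n / n))) := by
          apply mul_le_mul_of_nonneg_left _ hw.le
          linarith
      _ = (6 * (K + 8) * (Real.log n / n)) * w l n := by ring
      _ ≤ _ := by
          apply mul_le_mul _ (by linarith) hw.le (by positivity)
          have : 0 ≤ 1 / (n : ℝ) := by positivity
          linarith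
  · have e0 : Real.exp (-(3 * Real.log n)) = 1 / n * (1 / (n : ℝ) ^ 2) := by
      have h1 : -(3 * Real.log (n : ℝ)) = -(Real.log ((n : ℝ) ^ 3)) := by rw [Real.log_pow]; norm_num
      rw [h1, Real.exp_neg, Real.exp_log (by positivity)]
      field_simp
    have e1 : (1 - pr n) ^ (l n) ≤ 1 / n * (1 / (n : ℝ) ^ 2) := by
      rw [← e0]
      have h1 : 1 - pr n ≤ Real.exp (-(1 / n)) := by
        have := Real.add_one_le_exp (-(1 / (n : ℝ)))
        linarith
      calc (1 - pr n) ^ (l n) ≤ Real.exp (-(1 / n)) ^ (l n) := pow_le_pow_left₀ (by linarith) h1 _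
        _ = Real.exp (-(l n / n)) := by
          rw [← Real.exp_nat_mul]
          congr 1
          ring
        _ ≤ _ := by
          apply Real.exp_le_exp.2
          rw [neg_le_neg_iff, le_div_iff₀ hn0]
          linarith
    have e2 : w l n ≤ 1 / n * (1 / (n : ℝ) ^ 2) := by
      rw [← e0, w]
      apply Real.exp_le_exp.2
      rw [neg_le_neg_iff, le_div_iff₀ (by positivity)]
      have : 3 * Real.log n * (n * Real.log 2) ≤ 3 * Real.log n * (n * 1) := by gcongr; linarith
      linarith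
    have e3 : 0 ≤ (1 - pr n) ^ (l n) := pow_nonneg (by linarith) _
    have e4 : |(1 - pr n) ^ (l n) - w l n| ≤ 1 / n * (1 / (n : ℝ) ^ 2) := by
      rw [abs_le]
      constructor <;> linarith
    refine e4.trans ?_
    apply mul_le_mul _ (by linarith) hn2p.le (by positivity)
    have : 0 ≤ 6 * (K + 8) * (Real.log n / n) := by positivity
    linarith

end Pool.Agent.Run7.h189.PT
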